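import Pool.Agent.H676.G.R_seed8.W956.KF.Germ

set_option autoImplicit false
set_option linter.unusedSectionVars false

/-!
# Circuits of bounded size for a known factor outside a hypersurface
-/

namespace Pool.Agent.W956.KF

open Finset Pool.Agent.H53R3 Pool.Agent.H522R2 Pool.Agent.H522R2.Circuit MvPolynomial

section

variable {σ : Type}

/-- nonzero polynomials with rational coefficients -/
abbrev NZ (σ : Type) : Type := {H : MvPolynomial σ ℚ // H ≠ 0}

instance : Nonempty (NZ σ) := ⟨⟨1, one_ne_zero⟩⟩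

theorem exists_ultrafilter (σ : Type) : ∃ φ : Ultrafilter (NZ σ),
    ∀ G : NZ σ, ∀ᶠ H in (φ : Filter (NZ σ)), G.1 ∣ H.1 := by
  classical
  let f : NZ σ → Filter (NZ σ) := fun G => Filter.principal {H | G.1 ∣ H.1}
  have hne : (⨅ G, f G).NeBot := by
    apply Filter.iInf_neBot_of_directed'
    · intro G G'
      refine ⟨⟨G.1 * G'.1, mul_ne_zero G.2 G'.2⟩, ?_, ?_⟩
      · exact Filter.principal_mono.2 fun H hH => (dvd_mul_right _ _).trans hH
      · exact Filter.principal_mono.2 fun H hH => (dvd_mul_left _ _).trans hH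
    · intro G
      exact Filter.principal_neBot_iff.2 ⟨G, dvd_refl _⟩
  refine ⟨Ultrafilter.of (⨅ G, f G), fun G => ?_⟩
  have h1 : (Ultrafilter.of (⨅ G, f G) : Filter (NZ σ)) ≤ f G :=
    (Ultrafilter.of_le _).trans (iInf_le _ _)
  exact h1 (Filter.mem_principal_self _)

variable {K : Type} [Field K] [CharZero K] {α : Type} (φ : Ultrafilter α)

instance charZero_germ : CharZero ((φ : Filter α).Germ K) := by
  have hinj : Function.Injective
      ((Filter.Germ.coeRingHom (R := K) (φ : Filter α)).comp (Pi.constRingHom α K)) :=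
    RingHom.injective _
  exact charZero_of_injective_ringHom hinj

theorem aeval_germ {σ : Type} (b : σ → α → K) (G : MvPolynomial σ ℚ) :
    aeval (fun x => ((b x : α → K) : (φ : Filter α).Germ K)) G =
      ((fun H => aeval (fun x => b x H) G : α → K) : (φ : Filter α).Germ K) := by
  induction G using MvPolynomial.induction_on with
  | C a =>
    simp only [aeval_C]
    have h1 : (algebraMap ℚ ((φ : Filter α).Germ K)) a =
        ((Filter.Germ.coeRingHom (R := K) (φ : Filter α)).comp
          ((Pi.constRingHom α K).comp (algebraMap ℚ K))) a := by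
      congr 1
      exact Subsingleton.elim _ _
    rw [h1]
    rfl
  | add p q hp hq =>
    rw [map_add, hp, hq, ← Filter.Germ.coe_add]
    congr 1
    funext H
    simp
  | mul_X p x hp =>
    rw [map_mul, hp, aeval_X, ← Filter.Germ.coe_mul]
    congr 1
    funext H
    simp

end

theorem part_two (K : Type) [Field K] [CharZero K] (m n p s : ℕ) :
    ∃ H : MvPolynomial (Fin n × Fin p) ℚ, H ≠ 0 ∧ ∀ B : Matrix (Fin n) (Fin p) K,
      aeval (fun x : Fin n × Fin p => B x.1 x.2) H ≠ 0 →
      ∀ C : Circuit K (Fin m × Fin n), ComputesKnown C B → C.size ≤ s →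
        trank K m n p ≤ scalarCount C + 2 * C.nonscalarCount := by
  classical
  by_contra hcon
  push Not at hcon
  have hcon' : ∀ H : NZ (Fin n × Fin p), ∃ B : Matrix (Fin n) (Fin p) K,
      aeval (fun x : Fin n × Fin p => B x.1 x.2) H.1 ≠ 0 ∧ ∃ C : Circuit K (Fin m × Fin n),
        ComputesKnown C B ∧ C.size ≤ s ∧
          scalarCount C + 2 * C.nonscalarCount < trank K m n p := fun H => hcon H.1 H.2
  choose B hB C hC hs hw using hcon'
  obtain ⟨φ, hφ⟩ := exists_ultrafilter (Fin n × Fin p)
  have hpos : 1 ≤ trank K m n p := Nat.one_le_of_lt (hw ⟨1, one_ne_zero⟩)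
  set r := trank K m n p - 1 with hr
  have hgood : ∀ H, ∃ x : Σ N : Fin (s + 1), Shp m n p N, Good K (B H) r x.2 := by
    intro H
    obtain ⟨S, hS⟩ := good_of_circuit (C H) (B H) (hC H) (r := r) (by have := hw H; omega)
    exact ⟨⟨⟨(C H).size, by have := hs H; omega⟩, S⟩, hS⟩
  have hex : ∃ x : Σ N : Fin (s + 1), Shp m n p N, ∀ᶠ H in (φ : Filter _), Good K (B H) r x.2 := by
    by_contra hno
    rw [not_exists] at hno
    have h1 : ∀ x : Σ N : Fin (s + 1), Shp m n p N,
        ∀ᶠ H in (φ : Filter (NZ (Fin n × Fin p))), ¬ Good K (B H) r x.2 := by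
      intro x
      rw [Ultrafilter.eventually_not]
      exact hno x
    have h2 : ∀ᶠ H in (φ : Filter (NZ (Fin n × Fin p))),
        ∀ x : Σ N : Fin (s + 1), Shp m n p N, ¬ Good K (B H) r x.2 :=
      Filter.eventually_all.2 h1
    obtain ⟨H, hH⟩ := h2.exists
    obtain ⟨x, hx⟩ := hgood H
    exact hH x hx
  obtain ⟨x, hx⟩ := hex
  have hG := good_germ B hx
  have hind : AlgebraicIndependent ℚ
      (fun y : Fin n × Fin p => Bst φ B y.1 y.2) := by
    rw [algebraicIndependent_iff]
    intro G hG0
    by_contra hne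
    have h1 := aeval_germ φ (fun (y : Fin n × Fin p) H => B H y.1 y.2) G
    have h2 : aeval (fun y : Fin n × Fin p => Bst φ B y.1 y.2) G =
        ((fun H => aeval (fun y : Fin n × Fin p => B H y.1 y.2) G : _ → K) :
          (φ : Filter (NZ (Fin n × Fin p))).Germ K) := h1
    rw [hG0] at h2
    have h3 : (0 : (φ : Filter (NZ (Fin n × Fin p))).Germ K) =
        ((fun _ => 0 : NZ (Fin n × Fin p) → K) : (φ : Filter (NZ (Fin n × Fin p))).Germ K) := rfl
    rw [h3, Filter.Germ.coe_eq] at h2
    obtain ⟨H, h4, h5⟩ := (h2.and (hφ ⟨G, hne⟩)).exists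
    obtain ⟨Q, hQ⟩ := h5
    apply hB H
    simp only at h4
    rw [hQ, map_mul]
    simp only
    rw [← h4, zero_mul]
  choose D hD hDk hDB using fun i : Fin n × Fin p => exists_der hind i
  have hR := good_rank hG (fun j k => D (j, k)) (fun j k => hD (j, k)) (by
    intro j k j' k'
    have := hDB (j, k) (j', k')
    simp only [Prod.mk.injEq] at this
    exact this)
  have := trank_le (rank_germ hR)
  omega

end Pool.Agent.W956.KF
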