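import Pool.Agent.H676.G.R_seed8.W956.FF.Explicit
import Pool.Agent.H676.G.R_seed8.W956.KF.IntMat

set_option autoImplicit false

/-!
# The explicit matrices
-/

namespace Pool.Agent.W956.KF

open Finset Pool.Agent.H826R3.SM Pool.Agent.H522R2 Pool.Agent.H522R2.Circuit
open Pool.Agent.W956.FF (expMat algebraicIndependent_expMat)

theorem expMat_hard (m : ℕ) :
    trank ℂ m m m ≤ 2 * sizeKnown m (expMat m) ∧ trank ℂ m m m ≤ 6 * sizeForm m (expMat m) := by
  refine ⟨?_, ?_⟩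
  · obtain ⟨C, hC, hs⟩ := exists_circuit_known (expMat m)
    have h1 := trank_le (part_one (expMat m) (algebraicIndependent_expMat m) C hC)
    have h2 := live_le_act (k := ℚ) C
    have h3 := weight_le_size C
    omega
  · obtain ⟨C, hC, hs⟩ := exists_circuit_form (expMat m)
    have h1 := trank_le (part_one_form (expMat m) (algebraicIndependent_expMat m) C hC)
    have h3 := weight_le_size C
    omega

/-- all statements for matrices which satisfy the lower bounds -/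
theorem equiv_of_hard {K : Type} [Field K] [CharZero K] (B : ∀ m : ℕ, Matrix (Fin m) (Fin m) K)
    (h1 : ∀ m, trank K m m m ≤ 2 * sizeKnown m (B m))
    (h2 : ∀ m, trank K m m m ≤ 6 * sizeForm m (B m)) :
      (∀ m, trank K m m m ≤ 2 * sizeKnown m (B m) ∧ trank K m m m ≤ 6 * sizeForm m (B m) ∧
        sizeForm m (B m) ≤ sizeKnown m (B m) + 2 * m ^ 2 ∧ sizeKnown m (B m) ≤ sizeMM K m) ∧
      growth (fun m => sizeForm m (B m)) = omegaMM K ∧
      growth (fun m => sizeKnown m (B m)) = omegaMM K ∧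
      (Superlinear (sizeMM K) ↔ Superlinear (fun m => sizeForm m (B m))) ∧
      (Superlinear (sizeMM K) ↔ Superlinear (fun m => sizeKnown m (B m))) ∧
      (∀ τ D : ℝ, {m : ℕ | (sizeForm m (B m) : ℝ) ≤ D * (m : ℝ) ^ τ}.Infinite →
        omegaMM K ≤ τ) := by
  have hk : ∀ m, sizeKnown m (B m) ≤ sizeMM K m := fun m => sizeKnown_le_sizeMM _
  have hf : ∀ m, sizeForm m (B m) ≤ sizeKnown m (B m) + 2 * m ^ 2 :=
    fun m => sizeForm_le_sizeKnown _
  have hf5 : ∀ m, sizeForm m (B m) ≤ 5 * sizeMM K m := by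
    intro m
    have h3 := hf m
    have h4 := hk m
    have h5 := sq_le_trank K m
    have h6 := h1 m
    omega
  have hmm : ∀ m, trank K m m m ≤ 2 * sizeMM K m := by
    intro m
    have h3 := hk m
    have h4 := h1 m
    omega
  have upM : ∀ τ, omegaMM K < τ → ∃ D : ℝ, ∀ m : ℕ, (sizeMM K m : ℝ) ≤ D * (m : ℝ) ^ τ :=
    fun τ hτ => sizeMM_upper hτ
  have upK : ∀ τ, omegaMM K < τ → ∃ D : ℝ, ∀ m : ℕ,
      (sizeKnown m (B m) : ℝ) ≤ D * (m : ℝ) ^ τ := by
    intro τ hτ
    obtain ⟨D, hD⟩ := upM τ hτ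
    refine ⟨D, fun m => le_trans ?_ (hD m)⟩
    exact_mod_cast hk m
  have upF : ∀ τ, omegaMM K < τ → ∃ D : ℝ, ∀ m : ℕ,
      (sizeForm m (B m) : ℝ) ≤ D * (m : ℝ) ^ τ := by
    intro τ hτ
    obtain ⟨D, hD⟩ := upM τ hτ
    refine ⟨5 * D, fun m => ?_⟩
    have h3 : (sizeForm m (B m) : ℝ) ≤ 5 * (sizeMM K m : ℝ) := by
      exact_mod_cast hf5 m
    have h4 := hD m
    linarith [mul_assoc (5 : ℝ) D ((m : ℝ) ^ τ)]
  have sM := superlinear_iff (K := K) (f := sizeMM K) (c := 2) (by norm_num) hmm upM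
  have sK := superlinear_iff (K := K)
    (f := fun m => sizeKnown m (B m)) (c := 2) (by norm_num) h1 upK
  have sF := superlinear_iff (K := K)
    (f := fun m => sizeForm m (B m)) (c := 6) (by norm_num) h2 upF
  refine ⟨fun m => ⟨h1 m, h2 m, hf m, hk m⟩, growth_eq h2 upF, growth_eq h1 upK,
    sM.trans sF.symm, sM.trans sK.symm, fun τ D h => ?_⟩
  exact omega_le_of_infinite h2 h

theorem explicit_part :
      (∀ m, trank ℂ m m m ≤ 2 * sizeKnown m (expMat m) ∧
        trank ℂ m m m ≤ 6 * sizeForm m (expMat m) ∧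
        sizeForm m (expMat m) ≤ sizeKnown m (expMat m) + 2 * m ^ 2 ∧
        sizeKnown m (expMat m) ≤ sizeMM ℂ m) ∧
      growth (fun m => sizeForm m (expMat m)) = omegaMM ℂ ∧
      growth (fun m => sizeKnown m (expMat m)) = omegaMM ℂ ∧
      (Superlinear (sizeMM ℂ) ↔ Superlinear (fun m => sizeForm m (expMat m))) ∧
      (Superlinear (sizeMM ℂ) ↔ Superlinear (fun m => sizeKnown m (expMat m))) ∧
      (∀ τ D : ℝ, {m : ℕ | (sizeForm m (expMat m) : ℝ) ≤ D * (m : ℝ) ^ τ}.Infinite →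
        omegaMM ℂ ≤ τ) :=
  equiv_of_hard _ (fun m => (expMat_hard m).1) fun m => (expMat_hard m).2

end Pool.Agent.W956.KF
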