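import Pool.Agent.H676.G.R_seed8.H522R2.Circuit

set_option autoImplicit false
set_option linter.unusedSectionVars false

/-!
# Sequences of additions and multiplications in commutative rings
-/

namespace Pool.Agent.W956.KF

open Finset Pool.Agent.H522R2 Pool.Agent.H522R2.Circuit

section

variable {R : Type} [CommRing R]

/-- From the elements of `T` one obtains `T'` by adjoining the results of `s` additions and
multiplications of elements which are already there. -/
inductive Reach (T : Set R) : ℕ → Set R → Prop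
  | refl : Reach T 0 T
  | add {s : ℕ} {T' : Set R} {x y : R} : Reach T s T' → x ∈ T' → y ∈ T' →
      Reach T (s + 1) (insert (x + y) T')
  | mul {s : ℕ} {T' : Set R} {x y : R} : Reach T s T' → x ∈ T' → y ∈ T' →
      Reach T (s + 1) (insert (x * y) T')

theorem Reach.subset {T T' : Set R} {s : ℕ} (h : Reach T s T') : T ⊆ T' := by
  induction h with
  | refl => exact subset_rfl
  | add _ _ _ ih => exact ih.trans (Set.subset_insert _ _)
  | mul _ _ _ ih => exact ih.trans (Set.subset_insert _ _)

theorem Reach.trans {T T' T'' : Set R} {s s' : ℕ} (h : Reach T s T') (h' : Reach T' s' T'') :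
    Reach T (s + s') T'' := by
  induction h' with
  | refl => exact h
  | add _ hx hy ih => exact ih.add hx hy
  | mul _ hx hy ih => exact ih.mul hx hy

theorem Reach.mono {T T' : Set R} {s : ℕ} (h : Reach T s T') {T1 : Set R} (hT : T ⊆ T1) :
    ∃ T1', T' ⊆ T1' ∧ Reach T1 s T1' := by
  induction h with
  | refl => exact ⟨T1, hT, .refl⟩
  | add _ hx hy ih =>
    obtain ⟨T1', h1, h2⟩ := ih
    exact ⟨_, Set.insert_subset_insert h1, h2.add (h1 hx) (h1 hy)⟩
  | mul _ hx hy ih =>
    obtain ⟨T1', h1, h2⟩ := ih
    exact ⟨_, Set.insert_subset_insert h1, h2.mul (h1 hx) (h1 hy)⟩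

theorem Reach.map {R' : Type} [CommRing R'] (f : R →+* R') {T T' : Set R} {s : ℕ}
    (h : Reach T s T') : Reach (f '' T) s (f '' T') := by
  induction h with
  | refl => exact .refl
  | add _ hx hy ih =>
    rw [Set.image_insert_eq, map_add]
    exact ih.add ⟨_, hx, rfl⟩ ⟨_, hy, rfl⟩
  | mul _ hx hy ih =>
    rw [Set.image_insert_eq, map_mul]
    exact ih.mul ⟨_, hx, rfl⟩ ⟨_, hy, rfl⟩

/-- From the elements of `T` all elements of `P` can be computed with at most `s` additions and
multiplications. -/
def Cost (T P : Set R) (s : ℕ) : Prop := ∃ s' ≤ s, ∃ T', Reach T s' T' ∧ P ⊆ T'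

theorem Cost.of_subset {T P : Set R} (h : P ⊆ T) (s : ℕ) : Cost T P s :=
  ⟨0, Nat.zero_le _, T, .refl, h⟩

theorem Cost.mono {T P T1 P1 : Set R} {s s1 : ℕ} (h : Cost T P s) (hT : T ⊆ T1) (hP : P1 ⊆ P)
    (hs : s ≤ s1) : Cost T1 P1 s1 := by
  obtain ⟨s', hs', T', h1, h2⟩ := h
  obtain ⟨T1', h3, h4⟩ := h1.mono hT
  exact ⟨s', hs'.trans hs, T1', h4, hP.trans (h2.trans h3)⟩

theorem Cost.comp {T P Q : Set R} {s s' : ℕ} (h : Cost T P s) (h' : Cost (T ∪ P) Q s') :
    Cost T (P ∪ Q) (s + s') := by
  obtain ⟨a, ha, T', h1, h2⟩ := h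
  obtain ⟨b, hb, T'', h3, h4⟩ := h'
  obtain ⟨T1, h5, h6⟩ := h3.mono (Set.union_subset h1.subset h2)
  refine ⟨a + b, Nat.add_le_add ha hb, T1, h1.trans h6, ?_⟩
  exact Set.union_subset (h2.trans h6.subset) (h4.trans h5)

theorem Cost.map {R' : Type} [CommRing R'] (f : R →+* R') {T P : Set R} {s : ℕ}
    (h : Cost T P s) : Cost (f '' T) (f '' P) s := by
  obtain ⟨a, ha, T', h1, h2⟩ := h
  exact ⟨a, ha, f '' T', h1.map f, Set.image_mono h2⟩

theorem Cost.union {T P Q : Set R} {s s' : ℕ} (h : Cost T P s) (h' : Cost T Q s') :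
    Cost T (P ∪ Q) (s + s') :=
  h.comp (h'.mono Set.subset_union_left subset_rfl le_rfl)

theorem Cost.iUnion {T : Set R} {ι : Type} [Fintype ι] {P : ι → Set R} {s : ℕ}
    (h : ∀ i, Cost T (P i) s) : Cost T (⋃ i, P i) (Fintype.card ι * s) := by
  classical
  have h1 : ∀ S : Finset ι, Cost T (⋃ i ∈ S, P i) (S.card * s) := by
    intro S
    induction S using Finset.induction_on with
    | empty => exact Cost.of_subset (by simp) _
    | insert a S ha ih =>
      rw [Finset.set_biUnion_insert, Finset.card_insert_of_notMem ha]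
      refine ((h a).union ih).mono subset_rfl subset_rfl (le_of_eq ?_)
      ring
  have h2 := h1 univ
  simpa using h2

theorem Cost.range {T : Set R} {ι : Type} [Fintype ι] {x : ι → R} {s : ℕ}
    (h : ∀ i, Cost T {x i} s) : Cost T (Set.range x) (Fintype.card ι * s) := by
  refine (Cost.iUnion h).mono subset_rfl ?_ le_rfl
  rintro _ ⟨i, rfl⟩
  exact Set.mem_iUnion.2 ⟨i, rfl⟩

theorem Cost.add {T : Set R} {x y : R} (hx : x ∈ T) (hy : y ∈ T) : Cost T {x + y} 1 :=
  ⟨1, le_rfl, _, Reach.add .refl hx hy, by simp⟩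

theorem Cost.mul {T : Set R} {x y : R} (hx : x ∈ T) (hy : y ∈ T) : Cost T {x * y} 1 :=
  ⟨1, le_rfl, _, Reach.mul .refl hx hy, by simp⟩

theorem Cost.sum {T : Set R} (h0 : (0 : R) ∈ T) {ι : Type} (S : Finset ι) (x : ι → R)
    (hx : ∀ i ∈ S, x i ∈ T) : Cost T {∑ i ∈ S, x i} S.card := by
  classical
  induction S using Finset.induction_on with
  | empty => exact Cost.of_subset (by simpa using h0) _
  | insert a S ha ih =>
    rw [Finset.sum_insert ha, Finset.card_insert_of_notMem ha]
    have h1 := ih fun i hi => hx i (Finset.mem_insert_of_mem hi)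
    have h2 : Cost (T ∪ {∑ i ∈ S, x i}) {x a + ∑ i ∈ S, x i} 1 :=
      Cost.add (Or.inl (hx a (Finset.mem_insert_self _ _))) (Or.inr rfl)
    exact (h1.comp h2).mono subset_rfl Set.subset_union_right le_rfl

/-- sums of products -/
theorem Cost.sum_mul {T : Set R} (h0 : (0 : R) ∈ T) {ι : Type} [Fintype ι] (x y : ι → R)
    (hx : ∀ i, x i ∈ T) (hy : ∀ i, y i ∈ T) :
    Cost T {∑ i, x i * y i} (2 * Fintype.card ι) := by
  have h1 : Cost T (Set.range fun i => x i * y i) (Fintype.card ι * 1) :=
    Cost.range fun i => Cost.mul (hx i) (hy i)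
  have h2 : Cost (T ∪ Set.range fun i => x i * y i) {∑ i, x i * y i} (univ : Finset ι).card := by
    refine Cost.sum (Set.mem_union_left _ h0) univ (fun i => x i * y i) fun i _ => ?_
    exact Or.inr ⟨i, rfl⟩
  refine (h1.comp h2).mono subset_rfl Set.subset_union_right (le_of_eq ?_)
  rw [Finset.card_univ]
  ring

end

/-! ### Circuits -/

section

variable {K : Type} [Field K] {V : Type}

/-- variables and constants -/
def inputs (K : Type) [Field K] (V : Type) : Set (MvPolynomial V K) :=
  Set.range MvPolynomial.X ∪ Set.range MvPolynomial.C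

/-- a circuit with one more node -/
def snoc (C : Circuit K V) (g : Gate K V C.nodes) : Circuit K V where
  nodes := C.nodes + 1
  gate := Fin.lastCases (motive := fun k : Fin (C.nodes + 1) => Gate K V (k : ℕ)) g C.gate

theorem snoc_gate_castSucc (C : Circuit K V) (g : Gate K V C.nodes) (k : Fin C.nodes) :
    (snoc C g).gate k.castSucc = C.gate k :=
  Fin.lastCases_castSucc (motive := fun k : Fin (C.nodes + 1) => Gate K V (k : ℕ)) (last := g)
    (cast := C.gate) (i := k)

theorem snoc_gate_last (C : Circuit K V) (g : Gate K V C.nodes) :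
    (snoc C g).gate (Fin.last C.nodes) = g :=
  Fin.lastCases_last (motive := fun k : Fin (C.nodes + 1) => Gate K V (k : ℕ)) (last := g)
    (cast := C.gate)

theorem poly_snoc (C : Circuit K V) (g : Gate K V C.nodes) (k : Fin C.nodes) :
    (snoc C g).poly k.castSucc = C.poly k := by
  obtain ⟨k, hk⟩ := k
  induction k using Nat.strong_induction_on with
  | _ k ih =>
    rw [poly, poly]
    have h1 := snoc_gate_castSucc C g ⟨k, hk⟩
    cases h : C.gate ⟨k, hk⟩ with
    | var x => rw [h] at h1; rw [h1]
    | const c => rw [h] at h1; rw [h1]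
    | add i j =>
      rw [h] at h1; rw [h1]
      simp only
      exact congrArg₂ _ (ih i i.2 (i.2.trans hk)) (ih j j.2 (j.2.trans hk))
    | mul i j =>
      rw [h] at h1; rw [h1]
      simp only
      exact congrArg₂ _ (ih i i.2 (i.2.trans hk)) (ih j j.2 (j.2.trans hk))

theorem poly_snoc_last (C : Circuit K V) (g : Gate K V C.nodes) :
    (snoc C g).poly (Fin.last C.nodes) = match g with
      | .var x => MvPolynomial.X x
      | .const c => MvPolynomial.C c
      | .add i j => C.poly i + C.poly j
      | .mul i j => C.poly i * C.poly j := by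
  rw [poly]
  have h1 := snoc_gate_last C g
  cases g with
  | var x => rw [h1]
  | const c => rw [h1]
  | add i j =>
    rw [h1]
    simp only
    exact congrArg₂ _ (poly_snoc C _ i) (poly_snoc C _ j)
  | mul i j =>
    rw [h1]
    simp only
    exact congrArg₂ _ (poly_snoc C _ i) (poly_snoc C _ j)

theorem isGate_of_snoc (C : Circuit K V) (g : Gate K V C.nodes) (k : Fin C.nodes)
    (h : (∃ i j, (snoc C g).gate k.castSucc = Gate.add i j) ∨
      ∃ i j, (snoc C g).gate k.castSucc = Gate.mul i j) :
    (∃ i j, C.gate k = Gate.add i j) ∨ ∃ i j, C.gate k = Gate.mul i j := by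
  rw [snoc_gate_castSucc] at h
  exact h

theorem size_snoc_le (C : Circuit K V) (g : Gate K V C.nodes) :
    (snoc C g).size ≤ C.size + 1 := by
  classical
  unfold size
  have e : Nat.card (Option {k : Fin C.nodes //
      (∃ i j, C.gate k = Gate.add i j) ∨ ∃ i j, C.gate k = Gate.mul i j}) =
      Nat.card {k : Fin C.nodes //
      (∃ i j, C.gate k = Gate.add i j) ∨ ∃ i j, C.gate k = Gate.mul i j} + 1 := by
    rw [Finite.card_option]
  rw [← e]
  apply Nat.card_le_card_of_injective (fun t : {k : Fin (snoc C g).nodes //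
      (∃ i j, (snoc C g).gate k = Gate.add i j) ∨ ∃ i j, (snoc C g).gate k = Gate.mul i j} =>
    (if h : (t.1 : ℕ) < C.nodes then some ⟨⟨t.1, h⟩, isGate_of_snoc C g ⟨t.1, h⟩ t.2⟩ else none :
      Option {k : Fin C.nodes //
        (∃ i j, C.gate k = Gate.add i j) ∨ ∃ i j, C.gate k = Gate.mul i j}))
  rintro ⟨⟨x, hx⟩, h1⟩ ⟨⟨y, hy⟩, h2⟩ h
  have hx' : x < C.nodes + 1 := hx
  have hy' : y < C.nodes + 1 := hy
  simp only at h
  by_cases hxn : x < C.nodes
  · by_cases hyn : y < C.nodes
    · rw [dif_pos hxn, dif_pos hyn] at h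
      simp only [Option.some.injEq, Subtype.mk.injEq, Fin.mk.injEq] at h
      subst h
      rfl
    · rw [dif_pos hxn, dif_neg hyn] at h
      exact absurd h (by simp)
  · by_cases hyn : y < C.nodes
    · rw [dif_neg hxn, dif_pos hyn] at h
      exact absurd h (by simp)
    · have : x = y := by omega
      subst this
      rfl

theorem size_snoc_input (C : Circuit K V) (g : Gate K V C.nodes)
    (hg : ¬ ((∃ i j, g = Gate.add i j) ∨ ∃ i j, g = Gate.mul i j)) :
    (snoc C g).size ≤ C.size := by
  classical
  unfold size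
  have hlast : ∀ t : {k : Fin (snoc C g).nodes //
      (∃ i j, (snoc C g).gate k = Gate.add i j) ∨ ∃ i j, (snoc C g).gate k = Gate.mul i j},
      (t.1 : ℕ) < C.nodes := by
    rintro ⟨⟨x, hx⟩, h1⟩
    by_contra hcon
    have hx' : x < C.nodes + 1 := hx
    have hxe : x = C.nodes := by
      simp only at hcon
      omega
    subst hxe
    have h2 := snoc_gate_last C g
    have h3 : (snoc C g).gate ⟨C.nodes, hx⟩ = g := h2
    simp only [h3] at h1
    exact hg h1
  apply Nat.card_le_card_of_injective (fun t : {k : Fin (snoc C g).nodes //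
      (∃ i j, (snoc C g).gate k = Gate.add i j) ∨ ∃ i j, (snoc C g).gate k = Gate.mul i j} =>
    (⟨⟨t.1, hlast t⟩, isGate_of_snoc C g ⟨t.1, hlast t⟩ t.2⟩ :
      {k : Fin C.nodes //
        (∃ i j, C.gate k = Gate.add i j) ∨ ∃ i j, C.gate k = Gate.mul i j}))
  rintro ⟨⟨x, hx⟩, h1⟩ ⟨⟨y, hy⟩, h2⟩ h
  simp only [Subtype.mk.injEq, Fin.mk.injEq] at h
  subst h
  rfl

/-- the circuit computes all elements of `P` -/
def Comp (C : Circuit K V) (P : Set (MvPolynomial V K)) : Prop :=
  ∀ x ∈ P, ∃ k : Fin C.nodes, C.poly k = x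

theorem Comp.snoc {C : Circuit K V} {P : Set (MvPolynomial V K)} (h : Comp C P)
    (g : Gate K V C.nodes) : Comp (KF.snoc C g) P := by
  intro x hx
  obtain ⟨k, hk⟩ := h x hx
  exact ⟨k.castSucc, (poly_snoc C g k).trans hk⟩

/-- sequences of additions and multiplications give circuits -/
theorem exists_circuit_of_reach {s : ℕ} {T' : Set (MvPolynomial V K)}
    (h : Reach (inputs K V) s T') : ∀ P : Finset (MvPolynomial V K), (P : Set _) ⊆ T' →
      ∃ C : Circuit K V, C.size ≤ s ∧ Comp C P := by
  classical
  induction h with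
  | refl =>
    intro P hP
    induction P using Finset.induction_on with
    | empty =>
      refine ⟨⟨0, fun k => k.elim0⟩, ?_, fun x hx => absurd hx (by simp)⟩
      unfold size
      have : IsEmpty (Fin (⟨0, fun k => k.elim0⟩ : Circuit K V).nodes) := Fin.isEmpty'
      rw [Nat.card_eq_zero.2 (Or.inl inferInstance)]
    | insert a P ha ih =>
      rw [Finset.coe_insert] at hP
      obtain ⟨C, hs, hC⟩ := ih ((Set.subset_insert _ _).trans hP)
      rcases hP (Set.mem_insert a _) with ⟨v, hv⟩ | ⟨c, hc⟩
      · refine ⟨snoc C (.var v), (size_snoc_input C _ (by simp)).trans hs, ?_⟩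
        intro x hx
        rw [Finset.coe_insert] at hx
        rcases hx with rfl | hx
        · exact ⟨Fin.last _, (poly_snoc_last C _).trans hv⟩
        · exact hC.snoc _ x hx
      · refine ⟨snoc C (.const c), (size_snoc_input C _ (by simp)).trans hs, ?_⟩
        intro x hx
        rw [Finset.coe_insert] at hx
        rcases hx with rfl | hx
        · exact ⟨Fin.last _, (poly_snoc_last C _).trans hc⟩
        · exact hC.snoc _ x hx
  | @add s T' x y hT hx hy ih =>
    intro P hP
    obtain ⟨C, hs, hC⟩ := ih (insert x (insert y (P.erase (x + y)))) (by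
      intro z hz
      simp only [Finset.coe_insert, Finset.coe_erase, Set.mem_insert_iff, Set.mem_sdiff,
        Set.mem_singleton_iff, Finset.mem_coe] at hz
      rcases hz with rfl | rfl | ⟨hz, hne⟩
      · exact hx
      · exact hy
      · rcases hP hz with h1 | h1
        · exact absurd h1 hne
        · exact h1)
    obtain ⟨i, hi⟩ := hC x (by simp)
    obtain ⟨j, hj⟩ := hC y (by simp)
    refine ⟨snoc C (.add i j), (size_snoc_le C _).trans (by omega), ?_⟩
    intro z hz
    by_cases hzx : z = x + y
    · refine ⟨Fin.last _, (poly_snoc_last C _).trans ?_⟩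
      simp only
      rw [hi, hj, hzx]
    · exact hC.snoc _ z (by
        simp only [Finset.coe_insert, Finset.coe_erase, Set.mem_insert_iff, Set.mem_sdiff,
          Set.mem_singleton_iff, Finset.mem_coe]
        exact Or.inr (Or.inr ⟨hz, hzx⟩))
  | @mul s T' x y hT hx hy ih =>
    intro P hP
    obtain ⟨C, hs, hC⟩ := ih (insert x (insert y (P.erase (x * y)))) (by
      intro z hz
      simp only [Finset.coe_insert, Finset.coe_erase, Set.mem_insert_iff, Set.mem_sdiff,
        Set.mem_singleton_iff, Finset.mem_coe] at hz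
      rcases hz with rfl | rfl | ⟨hz, hne⟩
      · exact hx
      · exact hy
      · rcases hP hz with h1 | h1
        · exact absurd h1 hne
        · exact h1)
    obtain ⟨i, hi⟩ := hC x (by simp)
    obtain ⟨j, hj⟩ := hC y (by simp)
    refine ⟨snoc C (.mul i j), (size_snoc_le C _).trans (by omega), ?_⟩
    intro z hz
    by_cases hzx : z = x * y
    · refine ⟨Fin.last _, (poly_snoc_last C _).trans ?_⟩
      simp only
      rw [hi, hj, hzx]
    · exact hC.snoc _ z (by
        simp only [Finset.coe_insert, Finset.coe_erase, Set.mem_insert_iff, Set.mem_sdiff,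
          Set.mem_singleton_iff, Finset.mem_coe]
        exact Or.inr (Or.inr ⟨hz, hzx⟩))

theorem exists_circuit_of_cost {s : ℕ} {P : Set (MvPolynomial V K)} (hP : P.Finite)
    (h : Cost (inputs K V) P s) : ∃ C : Circuit K V, C.size ≤ s ∧ Comp C P := by
  obtain ⟨s', hs, T', h1, h2⟩ := h
  obtain ⟨C, h3, h4⟩ := exists_circuit_of_reach h1 hP.toFinset (by simpa using h2)
  exact ⟨C, h3.trans hs, by simpa using h4⟩

/-- circuits give sequences of additions and multiplications -/
theorem cost_of_circuit (C : Circuit K V) : Cost (inputs K V) (Set.range C.poly) C.size := by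
  classical
  have key : ∀ j ≤ C.nodes, Cost (inputs K V) {x | ∃ k : Fin C.nodes, (k : ℕ) < j ∧ C.poly k = x}
      (Nat.card {k : Fin C.nodes // (k : ℕ) < j ∧
        ((∃ i j, C.gate k = Gate.add i j) ∨ ∃ i j, C.gate k = Gate.mul i j)}) := by
    intro j hj
    induction j with
    | zero =>
      exact Cost.of_subset (by rintro x ⟨k, hk, _⟩; exact absurd hk (Nat.not_lt_zero _)) _
    | succ j ih =>
      have hih := ih (by omega)
      let kj : Fin C.nodes := ⟨j, by omega⟩
      have hset : {x | ∃ k : Fin C.nodes, (k : ℕ) < j + 1 ∧ C.poly k = x} ⊆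
          {x | ∃ k : Fin C.nodes, (k : ℕ) < j ∧ C.poly k = x} ∪ {C.poly kj} := by
        rintro x ⟨k, hk, rfl⟩
        rcases Nat.lt_succ_iff_lt_or_eq.1 hk with h1 | h1
        · exact Or.inl ⟨k, h1, rfl⟩
        · right
          have : k = kj := Fin.ext h1
          rw [this]
          rfl
      by_cases hg : (∃ a b, C.gate kj = Gate.add a b) ∨ ∃ a b, C.gate kj = Gate.mul a b
      · have hcard : Nat.card {k : Fin C.nodes // (k : ℕ) < j ∧
            ((∃ i j, C.gate k = Gate.add i j) ∨ ∃ i j, C.gate k = Gate.mul i j)} + 1 ≤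
            Nat.card {k : Fin C.nodes // (k : ℕ) < j + 1 ∧
            ((∃ i j, C.gate k = Gate.add i j) ∨ ∃ i j, C.gate k = Gate.mul i j)} := by
          rw [← Finite.card_option]
          apply Nat.card_le_card_of_injective (fun t : Option {k : Fin C.nodes // (k : ℕ) < j ∧
            ((∃ i j, C.gate k = Gate.add i j) ∨ ∃ i j, C.gate k = Gate.mul i j)} =>
            (match t with
            | none => ⟨kj, Nat.lt_succ_self _, hg⟩
            | some k => ⟨k.1, k.2.1.trans (Nat.lt_succ_self _), k.2.2⟩ :
              {k : Fin C.nodes // (k : ℕ) < j + 1 ∧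
            ((∃ i j, C.gate k = Gate.add i j) ∨ ∃ i j, C.gate k = Gate.mul i j)}))
          rintro (_ | ⟨x, hx⟩) (_ | ⟨y, hy⟩) h
          · rfl
          · have h1 := congrArg Subtype.val h
            simp only at h1
            rw [← h1] at hy
            exact absurd hy.1 (lt_irrefl _)
          · have h1 := congrArg Subtype.val h
            simp only at h1
            rw [h1] at hx
            exact absurd hx.1 (lt_irrefl _)
          · have h1 := congrArg Subtype.val h
            simp only at h1
            subst h1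
            rfl
        have hstep : Cost (inputs K V ∪ {x | ∃ k : Fin C.nodes, (k : ℕ) < j ∧ C.poly k = x})
            {C.poly kj} 1 := by
          rcases hg with ⟨a, b, hab⟩ | ⟨a, b, hab⟩
          · have h1 : C.poly kj = C.poly (C.up kj a) + C.poly (C.up kj b) := by
              rw [poly, hab]
            rw [h1]
            exact Cost.add (Or.inr ⟨_, a.2, rfl⟩) (Or.inr ⟨_, b.2, rfl⟩)
          · have h1 : C.poly kj = C.poly (C.up kj a) * C.poly (C.up kj b) := by
              rw [poly, hab]
            rw [h1]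
            exact Cost.mul (Or.inr ⟨_, a.2, rfl⟩) (Or.inr ⟨_, b.2, rfl⟩)
        exact (hih.comp hstep).mono subset_rfl hset hcard
      · have hcard : Nat.card {k : Fin C.nodes // (k : ℕ) < j ∧
            ((∃ i j, C.gate k = Gate.add i j) ∨ ∃ i j, C.gate k = Gate.mul i j)} ≤
            Nat.card {k : Fin C.nodes // (k : ℕ) < j + 1 ∧
            ((∃ i j, C.gate k = Gate.add i j) ∨ ∃ i j, C.gate k = Gate.mul i j)} := by
          apply Nat.card_le_card_of_injective (fun t : {k : Fin C.nodes // (k : ℕ) < j ∧
            ((∃ i j, C.gate k = Gate.add i j) ∨ ∃ i j, C.gate k = Gate.mul i j)} =>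
            (⟨t.1, t.2.1.trans (Nat.lt_succ_self _), t.2.2⟩ :
              {k : Fin C.nodes // (k : ℕ) < j + 1 ∧
            ((∃ i j, C.gate k = Gate.add i j) ∨ ∃ i j, C.gate k = Gate.mul i j)}))
          intro x y h
          have h' := congrArg Subtype.val h
          exact Subtype.ext h'
        have hin : C.poly kj ∈ inputs K V := by
          rw [poly]
          cases hgt : C.gate kj with
          | var x => exact Or.inl ⟨x, rfl⟩
          | const c => exact Or.inr ⟨c, rfl⟩
          | add a b => exact absurd (Or.inl ⟨a, b, hgt⟩) hg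
          | mul a b => exact absurd (Or.inr ⟨a, b, hgt⟩) hg
        have hstep : Cost (inputs K V ∪ {x | ∃ k : Fin C.nodes, (k : ℕ) < j ∧ C.poly k = x})
            {C.poly kj} 0 := Cost.of_subset (by
              rintro x rfl
              exact Or.inl hin) _
        exact (hih.comp hstep).mono subset_rfl hset hcard
  have h1 := key C.nodes le_rfl
  refine h1.mono subset_rfl ?_ ?_
  · rintro x ⟨k, rfl⟩
    exact ⟨k, k.2, rfl⟩
  · unfold size
    apply Nat.card_le_card_of_injective (fun t : {k : Fin C.nodes // (k : ℕ) < C.nodes ∧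
            ((∃ i j, C.gate k = Gate.add i j) ∨ ∃ i j, C.gate k = Gate.mul i j)} =>
            (⟨t.1, t.2.2⟩ :
              {k : Fin C.nodes //
            ((∃ i j, C.gate k = Gate.add i j) ∨ ∃ i j, C.gate k = Gate.mul i j)}))
    intro x y h
    have h' := congrArg Subtype.val h
    exact Subtype.ext h'

end

end Pool.Agent.W956.KF
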