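import Pool.Agent.H676.G.R_seed8.H53R3.Der

/-!
# Partial derivatives on a field extension of a field of characteristic 0 with respect to independent elements
-/

namespace Pool.Agent.W956.KF

open MvPolynomial Pool.Agent.H53R3

section

variable {k : Type*} [Field k] {κ : Type*} [DecidableEq κ] {F : Type*} [Field F] [Algebra k F] (z : κ → F)

/-- `p ↦ p(z) + ε (∂ᵢ p)(z)`. -/
noncomputable def psi0 (i : κ) : MvPolynomial κ k →+* DualNumber F :=
  eval₂Hom ((TrivSqZeroExt.inlHom F F).comp (algebraMap k F))
    (fun j => TrivSqZeroExt.inl (z j) + if j = i then DualNumber.eps else 0)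

lemma fst_psi0 (i : κ) (p : MvPolynomial κ k) : (psi0 z i p).fst = aeval z p := by
  have h : ((TrivSqZeroExt.fstHom F F F).toRingHom.comp (psi0 z i)) =
      (aeval z : MvPolynomial κ k →ₐ[k] F).toRingHom := by
    refine MvPolynomial.ringHom_ext ?_ ?_
    · intro c
      simp only [psi0, RingHom.comp_apply, coe_eval₂Hom, eval₂_C]
      simp
    · intro j
      simp only [psi0, RingHom.comp_apply, coe_eval₂Hom, eval₂_X]
      by_cases hj : j = i <;> simp [hj]
  exact congrArg (fun f => f p) h

variable {z}

lemma isUnit_psi0 (hz : AlgebraicIndependent k z) (i : κ)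
    (y : nonZeroDivisors (MvPolynomial κ k)) : IsUnit (psi0 (k := k) z i y) := by
  rw [TrivSqZeroExt.isUnit_iff_isUnit_fst, fst_psi0]
  refine IsUnit.mk0 _ fun h => ?_
  exact nonZeroDivisors.ne_zero y.2 (hz (by rw [h, map_zero]))

/-- The field of rational functions. -/
abbrev RFt (k : Type*) [Field k] (κ : Type*) := FractionRing (MvPolynomial κ k)

/-- The same on rational functions. -/
noncomputable def psi (hz : AlgebraicIndependent k z) (i : κ) : RFt k κ →+* DualNumber F :=
  IsLocalization.lift (M := nonZeroDivisors (MvPolynomial κ k)) (isUnit_psi0 hz i)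

lemma psi_algebraMap (hz : AlgebraicIndependent k z) (i : κ) (p : MvPolynomial κ k) :
    psi hz i (algebraMap _ (RFt k κ) p) = psi0 z i p :=
  IsLocalization.lift_eq _ _

/-- Evaluation of rational functions. -/
noncomputable def evz (hz : AlgebraicIndependent k z) : RFt k κ →+* F :=
  IsFractionRing.lift (A := MvPolynomial κ k) (K := RFt k κ)
    (g := (aeval z : MvPolynomial κ k →ₐ[k] F).toRingHom) hz

omit [DecidableEq κ] in
lemma evz_algebraMap (hz : AlgebraicIndependent k z) (p : MvPolynomial κ k) :
    evz hz (algebraMap _ (RFt k κ) p) = aeval z p :=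
  IsFractionRing.lift_algebraMap _ _

lemma fst_psi (hz : AlgebraicIndependent k z) (i : κ) (x : RFt k κ) :
    (psi hz i x).fst = evz hz x := by
  have h : ((TrivSqZeroExt.fstHom F F F).toRingHom.comp (psi hz i)) = evz hz := by
    refine IsLocalization.ringHom_ext (nonZeroDivisors (MvPolynomial κ k)) ?_
    refine RingHom.ext fun p => ?_
    simp only [RingHom.comp_apply, psi_algebraMap, evz_algebraMap]
    exact fst_psi0 z i _
  exact congrArg (fun f => f x) h

/-- **Partial derivatives exist.** -/
theorem exists_der [CharZero k] (hz : AlgebraicIndependent k z) (i : κ) :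
    ∃ D : F → F, IsDer D ∧ (∀ c : k, D (algebraMap k F c) = 0) ∧
      ∀ j, D (z j) = if j = i then 1 else 0 := by
  classical
  -- `F` as an algebra over the rational functions
  let a1 : Algebra (RFt k κ) F := (evz hz).toAlgebra
  have ha1 : ∀ x : RFt k κ, algebraMap (RFt k κ) F x = evz hz x := fun _ => rfl
  have hsm : Algebra.FormallySmooth (RFt k κ) F := by
    obtain ⟨ι, v, hv⟩ := exists_isTranscendenceBasis' (RFt k κ) F
    have halg := hv.isAlgebraic_field
    have : CharZero (IntermediateField.adjoin (RFt k κ) (Set.range v)) := by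
      have : CharZero (RFt k κ) := by
        refine charZero_of_injective_algebraMap (R := k) (A := RFt k κ) ?_
        exact (algebraMap k (RFt k κ)).injective
      exact charZero_of_injective_algebraMap
        (algebraMap (RFt k κ) (IntermediateField.adjoin (RFt k κ) (Set.range v))).injective
    have hsep : Algebra.IsSeparable (IntermediateField.adjoin (RFt k κ) (Set.range v)) F :=
      Algebra.IsAlgebraic.isSeparable_of_perfectField
    exact Algebra.FormallySmooth.of_algebraicIndependent_of_isSeparable hv.1
  -- dual numbers as an algebra over the rational functions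
  let a2 : Algebra (RFt k κ) (DualNumber F) := (psi hz i).toAlgebra
  have ha2 : ∀ x : RFt k κ, algebraMap (RFt k κ) (DualNumber F) x = psi hz i x := fun _ => rfl
  let fst' : DualNumber F →ₐ[RFt k κ] F :=
    { (TrivSqZeroExt.fstHom F F F).toRingHom with
      commutes' := fun x => by
        show (algebraMap (RFt k κ) (DualNumber F) x).fst = algebraMap (RFt k κ) F x
        rw [ha1, ha2, fst_psi] }
  have hfst' : ∀ x, fst' x = x.fst := fun _ => rfl
  have hsurj : Function.Surjective fst' := fun x => ⟨TrivSqZeroExt.inl x, by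
    rw [hfst', TrivSqZeroExt.fst_inl]⟩
  have hnil : IsNilpotent (RingHom.ker (fst' : DualNumber F →ₐ[RFt k κ] F)) := by
    refine ⟨2, ?_⟩
    generalize hI : RingHom.ker (fst' : DualNumber F →ₐ[RFt k κ] F) = I
    have e : I ^ 2 = I * I := by ring
    rw [e, Ideal.zero_eq_bot, eq_bot_iff, Ideal.mul_le]
    subst hI
    intro r hr s hs
    rw [RingHom.mem_ker] at hr hs
    have hr' : r.fst = 0 := hr
    have hs' : s.fst = 0 := hs
    rw [Ideal.mem_bot]
    refine TrivSqZeroExt.ext ?_ ?_
    · rw [TrivSqZeroExt.fst_mul, hr', zero_mul]; rfl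
    · rw [TrivSqZeroExt.snd_mul, hr', hs']; simp
  let φ : F →ₐ[RFt k κ] DualNumber F :=
    Algebra.FormallySmooth.liftOfSurjective (AlgHom.id (RFt k κ) F) fst' hsurj hnil
  have hφ : ∀ x, (φ x).fst = x := by
    intro x
    have := Algebra.FormallySmooth.liftOfSurjective_apply (AlgHom.id (RFt k κ) F) fst' hsurj hnil x
    exact this
  have hφK : ∀ x : RFt k κ, φ (evz hz x) = psi hz i x := fun x => by
    have := φ.commutes x
    rw [ha1, ha2] at this
    exact this
  refine ⟨fun x => (φ x).snd, ⟨fun a b => ?_, fun a b => ?_⟩, fun c => ?_, fun j => ?_⟩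
  · simp only [map_add, TrivSqZeroExt.snd_add]
  · simp only [map_mul, TrivSqZeroExt.snd_mul, hφ, smul_eq_mul, MulOpposite.smul_eq_mul_unop,
      MulOpposite.unop_op]
    ring
  · have h1 : algebraMap k F c = evz hz (algebraMap (MvPolynomial κ k) (RFt k κ) (C c)) := by
      rw [evz_algebraMap, aeval_C]
    simp only [h1, hφK, psi_algebraMap]
    simp [psi0]
  · have h1 : z j = evz hz (algebraMap (MvPolynomial κ k) (RFt k κ) (X j)) := by
      rw [evz_algebraMap, aeval_X]
    simp only
    rw [h1, hφK, psi_algebraMap]
    by_cases h : j = i <;> simp [psi0, h]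

end

/-- A derivation which vanishes on a field of characteristic 0 vanishes on all elements which are
algebraic over it. -/
theorem der_algebraic {k F : Type*} [Field k] [CharZero k] [Field F] [Algebra k F] {D : F → F}
    (hD : IsDer D) (hk : ∀ c : k, D (algebraMap k F c) = 0) {x : F} (hx : IsAlgebraic k x) :
    D x = 0 := by
  let D0 : F →ₗ[k] F :=
    { toFun := D
      map_add' := hD.add
      map_smul' := fun c y => by
        rw [Algebra.smul_def, hD.mul, hk, zero_mul, zero_add, RingHom.id_apply,
          Algebra.smul_def] }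
  let D1 : Derivation k F F := Derivation.mk' D0 fun a b => by
    show D (a * b) = a • D b + b • D a
    rw [hD.mul, smul_eq_mul, smul_eq_mul]
    ring
  have h1 : D1 (Polynomial.aeval x (minpoly k x)) =
      Polynomial.aeval x (Polynomial.derivative (minpoly k x)) • D1 x := D1.map_aeval _ _
  rw [minpoly.aeval, map_zero, smul_eq_mul] at h1
  have h2 : Polynomial.aeval x (Polynomial.derivative (minpoly k x)) ≠ 0 :=
    (minpoly.irreducible hx.isIntegral).separable.aeval_derivative_ne_zero (minpoly.aeval k x)
  rcases mul_eq_zero.1 h1.symm with h3 | h3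
  · exact absurd h3 h2
  · exact h3

end Pool.Agent.W956.KF
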