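import Pool.Agent.H676.G.R_seed8.W956.KF.Cost
import Pool.Agent.H676.G.R_seed8.W956.KF.Run

set_option autoImplicit false
set_option linter.unusedSectionVars false

/-!
# Strassen's recursion for the total number of operations
-/

namespace Pool.Agent.W956.KF

open Finset

/-- Two matrices indexed by `ι` over a commutative `K`-algebra can be multiplied with `s` additions
and multiplications. -/
def CostMM (K : Type) [Field K] (ι : Type) [Fintype ι] (s : ℕ) : Prop :=
  ∀ (R : Type) [CommRing R] [Algebra K R] (T : Set R), (∀ c : K, algebraMap K R c ∈ T) →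
    ∀ A B : Matrix ι ι R, (∀ i j, A i j ∈ T) → (∀ i j, B i j ∈ T) →
      Cost T {x | ∃ i j, x = (A * B) i j} s

variable {K : Type} [Field K]

theorem CostMM.mono {ι : Type} [Fintype ι] {s s' : ℕ} (h : CostMM K ι s) (hs : s ≤ s') :
    CostMM K ι s' := fun R _ _ T hT A B hA hB =>
  (h R T hT A B hA hB).mono subset_rfl subset_rfl hs

theorem CostMM.reindex {ι ι' : Type} [Fintype ι] [Fintype ι'] (e : ι' ≃ ι) {s : ℕ}
    (h : CostMM K ι s) : CostMM K ι' s := by
  intro R _ _ T hT A B hA hB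
  refine (h R T hT (A.submatrix e.symm e.symm) (B.submatrix e.symm e.symm) (fun i j => hA _ _)
    (fun i j => hB _ _)).mono subset_rfl ?_ le_rfl
  rintro x ⟨i, j, rfl⟩
  refine ⟨e i, e j, ?_⟩
  rw [Matrix.submatrix_mul_equiv]
  simp

theorem CostMM.pad {ι κ : Type} [Fintype ι] [Fintype κ] {s : ℕ} (h : CostMM K (ι ⊕ κ) s) :
    CostMM K ι s := by
  intro R _ _ T hT A B hA hB
  have h0 : (0 : R) ∈ T := by simpa using hT 0
  refine (h R T hT (Matrix.fromBlocks A 0 0 0) (Matrix.fromBlocks B 0 0 0) ?_ ?_).mono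
    subset_rfl ?_ le_rfl
  · rintro (i | i) (j | j)
    · exact hA i j
    · exact h0
    · exact h0
    · exact h0
  · rintro (i | i) (j | j)
    · exact hB i j
    · exact h0
    · exact h0
    · exact h0
  · rintro x ⟨i, j, rfl⟩
    refine ⟨.inl i, .inl j, ?_⟩
    rw [Matrix.fromBlocks_multiply]
    simp

theorem costMM_one (ι : Type) [Fintype ι] (hι : Fintype.card ι = 1) : CostMM K ι 1 := by
  intro R _ _ T hT A B hA hB
  obtain ⟨i0, hi0⟩ := Fintype.card_eq_one_iff.1 hι
  refine (Cost.mul (hA i0 i0) (hB i0 i0)).mono subset_rfl ?_ le_rfl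
  rintro x ⟨i, j, rfl⟩
  rw [hi0 i, hi0 j, Matrix.mul_apply, Finset.sum_eq_single i0]
  · rfl
  · intro b _ hb
    exact absurd (hi0 b) hb
  · simp

section

variable {R : Type} [CommRing R]

/-- entries of linear combinations -/
theorem cost_comb {T : Set R} (h0 : (0 : R) ∈ T) {a b c : Type} [Fintype a] [Fintype b] [Fintype c]
    (u : a → c → R) (x : b → c → R) (hu : ∀ l i, u l i ∈ T) (hx : ∀ e i, x e i ∈ T) :
    Cost T (Set.range fun t : a × b => ∑ i, u t.1 i * x t.2 i)
      (Fintype.card a * Fintype.card b * (2 * Fintype.card c)) := by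
  rw [← Fintype.card_prod]
  exact Cost.range fun t => Cost.sum_mul h0 _ _ (hu t.1) (hx t.2)

end

/-- the recursive step -/
theorem CostMM.step {q r : ℕ} (hr : RankLE K q q q r) {ι : Type} [Fintype ι] {f : ℕ}
    (h : CostMM K ι f) :
    CostMM K (Fin q × ι) (r * f + 6 * r * q ^ 2 * Fintype.card ι ^ 2) := by
  classical
  obtain ⟨U, V, W, hco⟩ := hr
  intro R _ _ T hT A B hA hB
  have h0 : (0 : R) ∈ T := by simpa using hT 0
  -- first linear forms
  let A' : Fin r → Matrix ι ι R := fun l => Matrix.of fun x y =>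
    ∑ t : Fin q × Fin q, algebraMap K R (U l t.1 t.2) * A (t.1, x) (t.2, y)
  let B' : Fin r → Matrix ι ι R := fun l => Matrix.of fun x y =>
    ∑ t : Fin q × Fin q, algebraMap K R (V l t.1 t.2) * B (t.1, x) (t.2, y)
  let PA : Set R := Set.range fun t : Fin r × (ι × ι) => A' t.1 t.2.1 t.2.2
  let PB : Set R := Set.range fun t : Fin r × (ι × ι) => B' t.1 t.2.1 t.2.2
  have hPA : Cost T PA (r * Fintype.card ι ^ 2 * (2 * q ^ 2)) := by
    refine (cost_comb (T := T) h0 (a := Fin r) (b := ι × ι) (c := Fin q × Fin q)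
      (fun l t => algebraMap K R (U l t.1 t.2)) (fun e t => A (t.1, e.1) (t.2, e.2))
      (fun l t => hT _) (fun e t => hA _ _)).mono subset_rfl subset_rfl (le_of_eq ?_)
    simp only [Fintype.card_prod, Fintype.card_fin]
    ring
  have hPB : Cost T PB (r * Fintype.card ι ^ 2 * (2 * q ^ 2)) := by
    refine (cost_comb (T := T) h0 (a := Fin r) (b := ι × ι) (c := Fin q × Fin q)
      (fun l t => algebraMap K R (V l t.1 t.2)) (fun e t => B (t.1, e.1) (t.2, e.2))
      (fun l t => hT _) (fun e t => hB _ _)).mono subset_rfl subset_rfl (le_of_eq ?_)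
    simp only [Fintype.card_prod, Fintype.card_fin]
    ring
  -- the products
  let PC : Set R := ⋃ l : Fin r, {x | ∃ i j, x = (A' l * B' l) i j}
  have hPC : Cost (T ∪ (PA ∪ PB)) PC (r * f) := by
    have := Cost.iUnion (T := T ∪ (PA ∪ PB)) (ι := Fin r)
      (P := fun l => {x | ∃ i j, x = (A' l * B' l) i j}) (s := f) ?_
    · simpa using this
    · intro l
      refine h R _ (fun c => Or.inl (hT c)) (A' l) (B' l) ?_ ?_
      · intro i j
        exact Or.inr (Or.inl ⟨(l, (i, j)), rfl⟩)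
      · intro i j
        exact Or.inr (Or.inr ⟨(l, (i, j)), rfl⟩)
  -- the outputs
  have hABC : Cost T ((PA ∪ PB) ∪ PC) ((r * Fintype.card ι ^ 2 * (2 * q ^ 2) +
      r * Fintype.card ι ^ 2 * (2 * q ^ 2)) + r * f) := (hPA.union hPB).comp hPC
  let PD : Set R := Set.range fun t : (Fin q × Fin q) × (ι × ι) =>
    ∑ l, algebraMap K R (W l t.1.1 t.1.2) * (A' l * B' l) t.2.1 t.2.2
  have hPD : Cost (T ∪ ((PA ∪ PB) ∪ PC)) PD (q ^ 2 * Fintype.card ι ^ 2 * (2 * r)) := by
    refine (cost_comb (T := T ∪ ((PA ∪ PB) ∪ PC)) (Or.inl h0)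
      (a := Fin q × Fin q) (b := ι × ι) (c := Fin r)
      (fun t l => algebraMap K R (W l t.1 t.2)) (fun e l => (A' l * B' l) e.1 e.2)
      (fun l t => Or.inl (hT _)) (fun e l => Or.inr (Or.inr
        (Set.mem_iUnion.2 ⟨l, e.1, e.2, rfl⟩)))).mono subset_rfl subset_rfl (le_of_eq ?_)
    simp only [Fintype.card_prod, Fintype.card_fin]
    ring
  refine (hABC.comp hPD).mono subset_rfl ?_ (le_of_eq (by ring))
  rintro _ ⟨⟨i, a⟩, ⟨k, b⟩, rfl⟩
  right
  refine ⟨((i, k), (a, b)), ?_⟩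
  simp only
  -- the identity
  have e1 : ∀ l, (A' l * B' l) a b = ∑ s : (Fin q × Fin q) × (Fin q × Fin q),
      algebraMap K R (U l s.1.1 s.1.2 * V l s.2.1 s.2.2) *
        ∑ y, A (s.1.1, a) (s.1.2, y) * B (s.2.1, y) (s.2.2, b) := by
    intro l
    rw [Matrix.mul_apply, Fintype.sum_prod_type (f := fun s : (Fin q × Fin q) × (Fin q × Fin q) =>
      algebraMap K R (U l s.1.1 s.1.2 * V l s.2.1 s.2.2) *
        ∑ y, A (s.1.1, a) (s.1.2, y) * B (s.2.1, y) (s.2.2, b))]
    have e3 : ∀ y, A' l a y * B' l y b = ∑ s1 : Fin q × Fin q, ∑ s2 : Fin q × Fin q,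
        (algebraMap K R (U l s1.1 s1.2) * A (s1.1, a) (s1.2, y)) *
          (algebraMap K R (V l s2.1 s2.2) * B (s2.1, y) (s2.2, b)) := by
      intro y
      simp only [A', B', Matrix.of_apply]
      exact Finset.sum_mul_sum _ _ _ _
    simp only [e3]
    rw [Finset.sum_comm]
    refine Finset.sum_congr rfl fun s1 _ => ?_
    rw [Finset.sum_comm]
    refine Finset.sum_congr rfl fun s2 _ => ?_
    rw [Finset.mul_sum]
    refine Finset.sum_congr rfl fun y _ => ?_
    rw [map_mul]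
    ring
  have e2 : ∑ l, algebraMap K R (W l i k) * (A' l * B' l) a b =
      ∑ s : (Fin q × Fin q) × (Fin q × Fin q),
        algebraMap K R (∑ l, U l s.1.1 s.1.2 * V l s.2.1 s.2.2 * W l i k) *
        ∑ y, A (s.1.1, a) (s.1.2, y) * B (s.2.1, y) (s.2.2, b) := by
    simp only [e1, Finset.mul_sum, map_sum, Finset.sum_mul]
    rw [Finset.sum_comm]
    refine Finset.sum_congr rfl fun s _ => ?_
    rw [Finset.sum_comm]
    refine Finset.sum_congr rfl fun y _ => Finset.sum_congr rfl fun l _ => ?_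
    simp only [map_mul]
    ring
  rw [e2]
  simp only [hco]
  rw [Matrix.mul_apply]
  rw [Fintype.sum_prod_type (f := fun s : (Fin q × Fin q) × (Fin q × Fin q) =>
    algebraMap K R (if s.1.1 = i ∧ s.1.2 = s.2.1 ∧ s.2.2 = k then 1 else 0) *
        ∑ y, A (s.1.1, a) (s.1.2, y) * B (s.2.1, y) (s.2.2, b))]
  simp only [Fintype.sum_prod_type]
  rw [Finset.sum_eq_single i]
  · refine Finset.sum_congr rfl fun j _ => ?_
    rw [Finset.sum_eq_single j, Finset.sum_eq_single k]
    · simp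
    · intro k' _ hk
      rw [if_neg (by rintro ⟨_, _, h3⟩; exact hk h3)]
      simp
    · simp
    · intro j' _ hj
      refine Finset.sum_eq_zero fun k' _ => ?_
      rw [if_neg (by rintro ⟨_, h2, _⟩; exact hj h2.symm)]
      simp
    · simp
  · intro i' _ hi
    refine Finset.sum_eq_zero fun j _ => Finset.sum_eq_zero fun j' _ =>
      Finset.sum_eq_zero fun k' _ => ?_
    rw [if_neg (by rintro ⟨h1, _, _⟩; exact hi h1)]
    simp
  · simp

/-- powers -/
theorem costMM_pow {q r : ℕ} (hr : RankLE K q q q r) (hqr : q ^ 2 ≤ r) (t : ℕ) :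
    ∀ (ι : Type) [Fintype ι], Fintype.card ι = q ^ t →
      CostMM K ι ((1 + 6 * q ^ 2 * t) * r ^ t) := by
  induction t with
  | zero =>
    intro ι _ hι
    refine (costMM_one ι (by simpa using hι)).mono ?_
    simp
  | succ t ih =>
    intro ι _ hι
    have h1 := (ih (Fin (q ^ t)) (by simp)).step hr
    have e : ι ≃ Fin q × Fin (q ^ t) := Fintype.equivOfCardEq (by
      rw [hι, Fintype.card_prod, Fintype.card_fin, Fintype.card_fin, pow_succ, mul_comm])
    refine (h1.reindex e).mono ?_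
    rw [Fintype.card_fin]
    have h2 : (q ^ t) ^ 2 ≤ r ^ t := by
      rw [← pow_mul, mul_comm, pow_mul]
      exact Nat.pow_le_pow_left hqr t
    calc r * ((1 + 6 * q ^ 2 * t) * r ^ t) + 6 * r * q ^ 2 * (q ^ t) ^ 2
        ≤ r * ((1 + 6 * q ^ 2 * t) * r ^ t) + 6 * r * q ^ 2 * r ^ t :=
          Nat.add_le_add_left (Nat.mul_le_mul_left _ h2) _
      _ = (1 + 6 * q ^ 2 * (t + 1)) * r ^ (t + 1) := by ring

theorem costMM_of_le {q r : ℕ} (hr : RankLE K q q q r) (hqr : q ^ 2 ≤ r) (t m : ℕ)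
    (hm : m ≤ q ^ t) : CostMM K (Fin m) ((1 + 6 * q ^ 2 * t) * r ^ t) := by
  have h := costMM_pow hr hqr t (Fin m ⊕ Fin (q ^ t - m)) (by
    rw [Fintype.card_sum, Fintype.card_fin, Fintype.card_fin]
    omega)
  exact h.pad

end Pool.Agent.W956.KF
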