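import Pool.Agent.H676.G.R_seed8.W956.KF.Run
import Pool.Agent.H676.G.R_seed8.W956.KF.Der
import Pool.Agent.H676.G.R_seed8.H88R3.MM.Circ

set_option autoImplicit false

/-!
# From circuits to straight-line computations
-/

namespace Pool.Agent.W956.KF

open Finset Pool.Agent.H53R3 Pool.Agent.H522R2 Pool.Agent.H522R2.Circuit MvPolynomial

universe u v

section

variable {K : Type u} [Field K] {V : Type v}

/-- the node is a gate (not an input) -/
def IsGate (C : Circuit K V) (k : Fin C.nodes) : Prop :=
  (∃ i j, C.gate k = Gate.add i j) ∨ ∃ i j, C.gate k = Gate.mul i j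

/-- constant label of an input node -/
def cst (C : Circuit K V) (v : Fin C.nodes) : K :=
  match C.gate v with
  | .const c => c
  | _ => 0

open Classical in
/-- a node as an operand -/
noncomputable def srcOf (C : Circuit K V) (v : Fin C.nodes) :
    Src {k : Fin C.nodes // IsGate C k} V :=
  if h : IsGate C v then .inl ⟨v, h⟩ else
    match C.gate v with
    | .var x => .inr (some x)
    | _ => .inr none

/-- the constant term at a node -/
noncomputable def cc (C : Circuit K V) (v : Fin C.nodes) : K := (C.poly v).coeff 0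

/-- the linear part at a node -/
noncomputable def ll (C : Circuit K V) (v : Fin C.nodes) (x : V) : K :=
  (C.poly v).coeff (Finsupp.single x 1)

theorem coeff_single_C (c : K) (x : V) :
    (MvPolynomial.C c : MvPolynomial V K).coeff (Finsupp.single x 1) = 0 := by
  classical
  rw [MvPolynomial.coeff_C, if_neg]
  intro h0
  have := congrArg (fun f => f x) h0
  simp at this

theorem coeff_single_X (x y : V) [Decidable (x = y)] :
    (MvPolynomial.X y : MvPolynomial V K).coeff (Finsupp.single x 1) = if x = y then 1 else 0 := by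
  classical
  rw [MvPolynomial.coeff_X']
  refine if_congr ?_ rfl rfl
  rw [Finsupp.single_left_inj one_ne_zero]
  exact eq_comm

theorem vc_srcOf (C : Circuit K V) (v : Fin C.nodes) :
    vc (cst C v) (fun l : {k : Fin C.nodes // IsGate C k} => cc C l.1) (srcOf C v) = cc C v := by
  unfold srcOf
  split_ifs with h
  · rfl
  · cases hg : C.gate v with
    | var x => simp [vc, cc, poly, hg]
    | const c => simp [vc, cc, poly, hg, cst]
    | add i j => exact absurd (Or.inl ⟨i, j, hg⟩) h
    | mul i j => exact absurd (Or.inr ⟨i, j, hg⟩) h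

theorem vl_srcOf (C : Circuit K V) (v : Fin C.nodes) (x : V) :
    vl (fun l : {k : Fin C.nodes // IsGate C k} => ll C l.1) (srcOf C v) x = ll C v x := by
  classical
  unfold srcOf
  split_ifs with h
  · rfl
  · cases hg : C.gate v with
    | var y =>
      rw [ll, poly, hg]
      simp only [vl, Pi.single_apply]
      rw [coeff_single_X]
    | const c =>
      rw [ll, poly, hg]
      simp only [vl, Pi.zero_apply]
      rw [coeff_single_C]
    | add i j => exact absurd (Or.inl ⟨i, j, hg⟩) h
    | mul i j => exact absurd (Or.inr ⟨i, j, hg⟩) h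

theorem opd_lt (C : Circuit K V) {l : Fin C.nodes} (hl : IsGate C l) (b : Bool) :
    opd C l b < l := by
  unfold opd
  rcases hl with ⟨i, j, h⟩ | ⟨i, j, h⟩ <;> rw [h] <;> cases b
  · exact i.2
  · exact j.2
  · exact i.2
  · exact j.2

open Classical in
/-- **The straight-line computation of a circuit.** -/
theorem isRun_circuit (C : Circuit K V) :
    IsRun (L := {k : Fin C.nodes // IsGate C k})
      (fun l => decide (∃ i j, C.gate l.1 = Gate.mul i j))
      (fun l b => srcOf C (opd C l.1 b)) (fun l b => cst C (opd C l.1 b))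
      (fun l => cc C l.1) (fun l => ll C l.1) := by
  constructor
  · rintro ⟨l, hl⟩ hmu
    simp only [vc_srcOf]
    rcases hl with ⟨i, j, h⟩ | ⟨i, j, h⟩
    · simp only [cc, opd, h]
      rw [poly, h]
      simp
    · simp [h] at hmu
  · rintro ⟨l, hl⟩ x hmu
    simp only [vl_srcOf]
    rcases hl with ⟨i, j, h⟩ | ⟨i, j, h⟩
    · simp only [ll, opd, h]
      rw [poly, h]
      simp
    · simp [h] at hmu
  · rintro ⟨l, hl⟩ hmu
    simp only [vc_srcOf]
    rcases hl with ⟨i, j, h⟩ | ⟨i, j, h⟩
    · simp [h] at hmu
    · simp only [cc, opd, h]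
      rw [poly, h]
      simp only [Pool.Agent.H88R3.MM.coeff_zero_mul]
      simp
  · rintro ⟨l, hl⟩ x hmu
    simp only [vc_srcOf, vl_srcOf]
    rcases hl with ⟨i, j, h⟩ | ⟨i, j, h⟩
    · simp [h] at hmu
    · simp only [cc, ll, opd, h]
      rw [poly, h]
      simp only [Pool.Agent.H88R3.MM.coeff_lin_mul]
      simp only [Bool.false_eq_true, if_false, if_true]
      ring

theorem srcOf_lt (C : Circuit K V) (l : {k : Fin C.nodes // IsGate C k}) (b : Bool)
    (l' : {k : Fin C.nodes // IsGate C k}) (h : srcOf C (opd C l.1 b) = Sum.inl l') : l' < l := by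
  unfold srcOf at h
  split_ifs at h with h1
  · have h2 := Sum.inl_injective h
    rw [← h2]
    exact opd_lt C l.2 b
  · revert h
    cases C.gate (opd C l.1 b) <;> simp

variable {m n p : ℕ}

theorem coeff_target (B : Matrix (Fin n) (Fin p) K) (i : Fin m) (k : Fin p) (x : Fin m × Fin n) :
    (target B i k).coeff (Finsupp.single x 1) = if x.1 = i then B x.2 k else 0 := by
  classical
  obtain ⟨i', j'⟩ := x
  unfold target
  rw [MvPolynomial.coeff_sum]
  simp only [MvPolynomial.coeff_C_mul, coeff_single_X, Prod.mk.injEq, mul_ite, mul_one, mul_zero]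
  by_cases h : i' = i
  · simp [h]
  · simp [h]

/-- the outputs -/
theorem out_circuit (C : Circuit K (Fin m × Fin n)) (B : Matrix (Fin n) (Fin p) K)
    (hC : ComputesKnown C B) (i : Fin m) (k : Fin p) :
    (∃ l : {k : Fin C.nodes // IsGate C k}, ∀ x : Fin m × Fin n,
      ll C l.1 x = if x.1 = i then B x.2 k else 0) ∨ ∀ j : Fin n, B j k = 0 ∨ B j k = 1 := by
  classical
  obtain ⟨v, hv⟩ := hC i k
  by_cases hg : IsGate C v
  · left
    refine ⟨⟨v, hg⟩, fun x => ?_⟩
    rw [ll, hv, coeff_target]
  · right
    intro j
    have h1 : ll C v (i, j) = B j k := by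
      rw [ll, hv, coeff_target]
      simp
    rw [← h1, ll, poly]
    cases hgt : C.gate v with
    | var y =>
      simp only [coeff_single_X]
      split_ifs
      · exact Or.inr rfl
      · exact Or.inl rfl
    | const c =>
      simp only [coeff_single_C]
      exact Or.inl trivial
    | add i j => exact absurd (Or.inl ⟨i, j, hgt⟩) hg
    | mul i j => exact absurd (Or.inr ⟨i, j, hgt⟩) hg

end

end Pool.Agent.W956.KF
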