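import Pool.Agent.H676.G.R_seed8.W956.KF.Run

set_option autoImplicit false

/-!
# Straight-line computations of bilinear forms, and derivations of the constants
-/

namespace Pool.Agent.W956.KF

open Finset Pool.Agent.H53R3

universe u v w

section

variable {K : Type u} [Field K] {L : Type v} {X Y : Type w}

/-- the bilinear part of an operand -/
def vq (q : L → X → Y → K) : Src L (X ⊕ Y) → X → Y → K
  | .inl l => q l
  | .inr _ => 0

/-- Bilinear parts `q` of the results of a straight-line computation. -/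
structure IsRun2 (mu : L → Bool) (s : L → Bool → Src L (X ⊕ Y)) (κ : L → Bool → K) (c : L → K)
    (ℓ : L → X ⊕ Y → K) (q : L → X → Y → K) : Prop extends IsRun mu s κ c ℓ where
  qadd : ∀ l x y, mu l = false → q l x y = vq q (s l false) x y + vq q (s l true) x y
  qmul : ∀ l x y, mu l = true → q l x y = vc (κ l false) c (s l false) * vq q (s l true) x y +
    vc (κ l true) c (s l true) * vq q (s l false) x y +
    (vl ℓ (s l false) (.inl x) * vl ℓ (s l true) (.inr y) +
      vl ℓ (s l true) (.inl x) * vl ℓ (s l false) (.inr y))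

/-- the product of the linear parts of the two inputs -/
noncomputable def pp (s : L → Bool → Src L (X ⊕ Y)) (ℓ : L → X ⊕ Y → K) (l : L) (x : X) (y : Y) :
    K :=
  vl ℓ (s l false) (.inl x) * vl ℓ (s l true) (.inr y) +
    vl ℓ (s l true) (.inl x) * vl ℓ (s l false) (.inr y)

/-- multiplications outside `G` have no product of linear parts -/
def DeadG (mu : L → Bool) (s : L → Bool → Src L (X ⊕ Y)) (ℓ : L → X ⊕ Y → K) (G : Finset L) :
    Prop :=
  ∀ l, mu l = true → l ∉ G → ∀ x y, pp s ℓ l x y = 0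

theorem run2_der [LinearOrder L] [WellFoundedLT L] {mu : L → Bool} {s : L → Bool → Src L (X ⊕ Y)}
    {κ : L → Bool → K} {c : L → K} {ℓ : L → X ⊕ Y → K} {q : L → X → Y → K}
    (h : IsRun2 mu s κ c ℓ q)
    (hs : ∀ l b l', s l b = Sum.inl l' → l' < l) (Λ : Finset (L × Bool)) (G : Finset L)
    (hG : DeadG mu s ℓ G) (l : L) :
    ∃ (w : L → K) (M : L × Bool → X ⊕ Y → K),
      (∀ x y, q l x y = ∑ g ∈ G, w g * pp s ℓ g x y) ∧
      ∀ D : K → K, IsDer D → Dead mu s κ c ℓ Λ D → ∀ x y,
        D (q l x y) = ∑ g ∈ G, D (w g) * pp s ℓ g x y +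
          ∑ t ∈ Λ, D (vc (κ t.1 t.2) c (s t.1 t.2)) *
            (vl ℓ (s t.1 (!t.2)) (.inl x) * M t (.inr y) +
              M t (.inl x) * vl ℓ (s t.1 (!t.2)) (.inr y)) := by
  classical
  induction l using WellFoundedLT.induction with
  | _ l ih =>
    have key : ∀ b, ∃ (w : L → K) (M : L × Bool → X ⊕ Y → K),
      (∀ x y, vq q (s l b) x y = ∑ g ∈ G, w g * pp s ℓ g x y) ∧
      ∀ D : K → K, IsDer D → Dead mu s κ c ℓ Λ D → ∀ x y,
        D (vq q (s l b) x y) = ∑ g ∈ G, D (w g) * pp s ℓ g x y +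
          ∑ t ∈ Λ, D (vc (κ t.1 t.2) c (s t.1 t.2)) *
            (vl ℓ (s t.1 (!t.2)) (.inl x) * M t (.inr y) +
              M t (.inl x) * vl ℓ (s t.1 (!t.2)) (.inr y)) := by
      intro b
      rcases hsb : s l b with l' | y
      · exact ih l' (hs l b l' hsb)
      · refine ⟨0, 0, fun x y => by simp [vq], fun D hD _ x y => ?_⟩
        simp [vq, hD.zero]
    obtain ⟨w0, M0, hw0, hM0⟩ := key false
    obtain ⟨w1, M1, hw1, hM1⟩ := key true
    -- the derivative of the linear parts of the inputs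
    have keyl : ∀ b, ∃ w : L × Bool → K, ∀ D : K → K, IsDer D → Dead mu s κ c ℓ Λ D → ∀ z,
        D (vl ℓ (s l b) z) =
          ∑ t ∈ Λ, w t * (D (vc (κ t.1 t.2) c (s t.1 t.2)) * vl ℓ (s t.1 (!t.2)) z) := by
      intro b
      rcases hsb : s l b with l' | y
      · obtain ⟨w, hw⟩ := run_der h.toIsRun hs Λ l'
        exact ⟨w, fun D hD hdead x => hw D hD hdead x⟩
      · refine ⟨0, fun D hD _ x => ?_⟩
        simp only [Pi.zero_apply, zero_mul, Finset.sum_const_zero]
        cases y with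
        | none => exact hD.zero
        | some y =>
          simp only [vl, Pi.single_apply]
          split_ifs
          · exact hD.one
          · exact hD.zero
    obtain ⟨k0, hk0⟩ := keyl false
    obtain ⟨k1, hk1⟩ := keyl true
    rcases hmu : mu l with _ | _
    · refine ⟨fun g => w0 g + w1 g, fun t z => M0 t z + M1 t z, fun x y => ?_,
        fun D hD hdead x y => ?_⟩
      · rw [h.qadd l x y hmu, hw0, hw1, ← Finset.sum_add_distrib]
        exact Finset.sum_congr rfl fun g _ => by ring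
      · rw [h.qadd l x y hmu, hD.add, hM0 D hD hdead, hM1 D hD hdead]
        have e1 : ∑ g ∈ G, D (w0 g + w1 g) * pp s ℓ g x y =
            ∑ g ∈ G, D (w0 g) * pp s ℓ g x y + ∑ g ∈ G, D (w1 g) * pp s ℓ g x y := by
          rw [← Finset.sum_add_distrib]
          exact Finset.sum_congr rfl fun g _ => by rw [hD.add]; ring
        have e2 : ∑ t ∈ Λ, D (vc (κ t.1 t.2) c (s t.1 t.2)) *
            (vl ℓ (s t.1 (!t.2)) (.inl x) * (M0 t (.inr y) + M1 t (.inr y)) +
              (M0 t (.inl x) + M1 t (.inl x)) * vl ℓ (s t.1 (!t.2)) (.inr y)) =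
            ∑ t ∈ Λ, D (vc (κ t.1 t.2) c (s t.1 t.2)) *
              (vl ℓ (s t.1 (!t.2)) (.inl x) * M0 t (.inr y) +
                M0 t (.inl x) * vl ℓ (s t.1 (!t.2)) (.inr y)) +
            ∑ t ∈ Λ, D (vc (κ t.1 t.2) c (s t.1 t.2)) *
              (vl ℓ (s t.1 (!t.2)) (.inl x) * M1 t (.inr y) +
                M1 t (.inl x) * vl ℓ (s t.1 (!t.2)) (.inr y)) := by
          rw [← Finset.sum_add_distrib]
          exact Finset.sum_congr rfl fun g _ => by ring
        rw [e1, e2]
        ring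
    · set c0 := vc (κ l false) c (s l false) with hc0
      set c1 := vc (κ l true) c (s l true) with hc1
      refine ⟨fun g => c0 * w1 g + c1 * w0 g + (if l = g then 1 else 0),
        fun t z => c0 * M1 t z + c1 * M0 t z + (k0 t * vl ℓ (s l true) z +
          k1 t * vl ℓ (s l false) z), fun x y => ?_, fun D hD hdead x y => ?_⟩
      · rw [h.qmul l x y hmu, hw0, hw1]
        have e0 : (∑ g ∈ G, (if l = g then (1 : K) else 0) * pp s ℓ g x y) = pp s ℓ l x y := by
          simp only [ite_mul, one_mul, zero_mul, Finset.sum_ite_eq]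
          split_ifs with hl
          · rfl
          · exact (hG l hmu hl x y).symm
        simp only [add_mul, Finset.sum_add_distrib, e0, Finset.mul_sum, mul_assoc]
        rfl
      · have e1 : (∑ g ∈ G, D (c0 * w1 g + c1 * w0 g + (if l = g then 1 else 0)) *
            pp s ℓ g x y) =
            c0 * (∑ g ∈ G, D (w1 g) * pp s ℓ g x y) + D c0 * (∑ g ∈ G, w1 g * pp s ℓ g x y) +
            (c1 * (∑ g ∈ G, D (w0 g) * pp s ℓ g x y) +
              D c1 * (∑ g ∈ G, w0 g * pp s ℓ g x y)) := by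
          have e3 : ∀ g, D (if l = g then (1 : K) else 0) = 0 := by
            intro g
            split_ifs
            · exact hD.one
            · exact hD.zero
          simp only [Finset.mul_sum]
          rw [← Finset.sum_add_distrib, ← Finset.sum_add_distrib, ← Finset.sum_add_distrib]
          refine Finset.sum_congr rfl fun g _ => ?_
          rw [hD.add, hD.add, hD.mul, hD.mul, e3]
          ring
        have e2 : ∑ t ∈ Λ, D (vc (κ t.1 t.2) c (s t.1 t.2)) *
            (vl ℓ (s t.1 (!t.2)) (.inl x) * (c0 * M1 t (.inr y) + c1 * M0 t (.inr y) +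
              (k0 t * vl ℓ (s l true) (.inr y) + k1 t * vl ℓ (s l false) (.inr y))) +
              (c0 * M1 t (.inl x) + c1 * M0 t (.inl x) +
              (k0 t * vl ℓ (s l true) (.inl x) + k1 t * vl ℓ (s l false) (.inl x))) *
                vl ℓ (s t.1 (!t.2)) (.inr y)) =
            c0 * (∑ t ∈ Λ, D (vc (κ t.1 t.2) c (s t.1 t.2)) *
              (vl ℓ (s t.1 (!t.2)) (.inl x) * M1 t (.inr y) +
                M1 t (.inl x) * vl ℓ (s t.1 (!t.2)) (.inr y))) +
            c1 * (∑ t ∈ Λ, D (vc (κ t.1 t.2) c (s t.1 t.2)) *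
              (vl ℓ (s t.1 (!t.2)) (.inl x) * M0 t (.inr y) +
                M0 t (.inl x) * vl ℓ (s t.1 (!t.2)) (.inr y))) +
            ((∑ t ∈ Λ, k0 t * (D (vc (κ t.1 t.2) c (s t.1 t.2)) *
                vl ℓ (s t.1 (!t.2)) (.inl x))) * vl ℓ (s l true) (.inr y) +
              vl ℓ (s l true) (.inl x) * (∑ t ∈ Λ, k0 t * (D (vc (κ t.1 t.2) c (s t.1 t.2)) *
                vl ℓ (s t.1 (!t.2)) (.inr y))) +
              ((∑ t ∈ Λ, k1 t * (D (vc (κ t.1 t.2) c (s t.1 t.2)) *
                vl ℓ (s t.1 (!t.2)) (.inl x))) * vl ℓ (s l false) (.inr y) +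
              vl ℓ (s l false) (.inl x) * (∑ t ∈ Λ, k1 t * (D (vc (κ t.1 t.2) c (s t.1 t.2)) *
                vl ℓ (s t.1 (!t.2)) (.inr y))))) := by
          simp only [Finset.mul_sum, Finset.sum_mul]
          rw [← Finset.sum_add_distrib, ← Finset.sum_add_distrib, ← Finset.sum_add_distrib,
            ← Finset.sum_add_distrib, ← Finset.sum_add_distrib]
          exact Finset.sum_congr rfl fun g _ => by ring
        rw [e1, e2, h.qmul l x y hmu, hD.add, hD.add, hD.add, hD.mul, hD.mul, hD.mul, hD.mul,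
          hM0 D hD hdead, hM1 D hD hdead, ← hw0, ← hw1, ← hk0 D hD hdead, ← hk0 D hD hdead,
          ← hk1 D hD hdead, ← hk1 D hD hdead]
        ring

/-- **The rank bound for a bilinear form.** -/
theorem run2_rank {m n p : ℕ} [LinearOrder L] [WellFoundedLT L] {mu : L → Bool}
    {s : L → Bool → Src L ((Fin m × Fin n) ⊕ (Fin p × Fin m))}
    {κ : L → Bool → K} {c : L → K} {ℓ : L → (Fin m × Fin n) ⊕ (Fin p × Fin m) → K}
    {q : L → Fin m × Fin n → Fin p × Fin m → K} (h : IsRun2 mu s κ c ℓ q)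
    (hs : ∀ l b l', s l b = Sum.inl l' → l' < l) (Λ : Finset (L × Bool)) (G : Finset L)
    (hG : DeadG mu s ℓ G)
    (B : Matrix (Fin n) (Fin p) K) (D : Fin n → Fin p → K → K) (hD : ∀ j k, IsDer (D j k))
    (hDB : ∀ j k j' k', D j k (B j' k') = if j' = j ∧ k' = k then 1 else 0)
    (hdead : ∀ j k, Dead mu s κ c ℓ Λ (D j k))
    (hout : (∃ l, ∀ (x : Fin m × Fin n) (y : Fin p × Fin m),
        q l x y = if x.1 = y.2 then B x.2 y.1 else 0) ∨
      ∀ (x : Fin m × Fin n) (y : Fin p × Fin m), (if x.1 = y.2 then B x.2 y.1 else 0) = 0) :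
    RankLE K m n p (2 * G.card + 2 * Λ.card) := by
  classical
  have key : ∃ (w : L → K) (M : L × Bool → (Fin m × Fin n) ⊕ (Fin p × Fin m) → K),
      ∀ (j' : Fin n) (k' : Fin p) (x : Fin m × Fin n) (y : Fin p × Fin m),
        D j' k' (if x.1 = y.2 then B x.2 y.1 else 0) =
        ∑ g ∈ G, D j' k' (w g) * pp s ℓ g x y +
          ∑ t ∈ Λ, D j' k' (vc (κ t.1 t.2) c (s t.1 t.2)) *
            (vl ℓ (s t.1 (!t.2)) (.inl x) * M t (.inr y) +
              M t (.inl x) * vl ℓ (s t.1 (!t.2)) (.inr y)) := by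
    rcases hout with ⟨l, hl⟩ | h0
    · obtain ⟨w, M, _, hM⟩ := run2_der h hs Λ G hG l
      refine ⟨w, M, fun j' k' x y => ?_⟩
      rw [← hl]
      exact hM _ (hD j' k') (hdead j' k') x y
    · refine ⟨0, 0, fun j' k' x y => ?_⟩
      rw [h0, (hD j' k').zero]
      simp [(hD j' k').zero]
  obtain ⟨w, M, hM⟩ := key
  have h2 := rankLE_of_fintype (K := K) (m := m) (n := n) (p := p)
    (T := (G ⊕ Λ) × Bool)
    (fun t => Matrix.of fun i j => match t with
      | (.inl g, b) => vl ℓ (s g.1 b) (.inl (i, j))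
      | (.inr t, false) => vl ℓ (s t.1.1 (!t.1.2)) (.inl (i, j))
      | (.inr t, true) => M t.1 (.inl (i, j)))
    (fun t => Matrix.of fun j k => match t with
      | (.inl g, _) => D j k (w g.1)
      | (.inr t, _) => D j k (vc (κ t.1.1 t.1.2) c (s t.1.1 t.1.2)))
    (fun t => Matrix.of fun i k => match t with
      | (.inl g, b) => vl ℓ (s g.1 (!b)) (.inr (k, i))
      | (.inr t, false) => M t.1 (.inr (k, i))
      | (.inr t, true) => vl ℓ (s t.1.1 (!t.1.2)) (.inr (k, i))) ?_
  · refine h2.mono (le_of_eq ?_)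
    rw [Fintype.card_prod, Fintype.card_sum, Fintype.card_bool, Fintype.card_coe, Fintype.card_coe]
    ring
  · intro i i' j j' k k'
    have h3 := hM j' k (i, j) (k', i')
    have e1 : ∑ g ∈ G, D j' k (w g) * pp s ℓ g (i, j) (k', i') =
        ∑ g : G, D j' k (w g.1) * pp s ℓ g.1 (i, j) (k', i') :=
      (Finset.sum_coe_sort G (fun g => D j' k (w g) * pp s ℓ g (i, j) (k', i'))).symm
    have e2 : ∑ t ∈ Λ, D j' k (vc (κ t.1 t.2) c (s t.1 t.2)) *
            (vl ℓ (s t.1 (!t.2)) (.inl (i, j)) * M t (.inr (k', i')) +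
              M t (.inl (i, j)) * vl ℓ (s t.1 (!t.2)) (.inr (k', i'))) =
        ∑ t : Λ, D j' k (vc (κ t.1.1 t.1.2) c (s t.1.1 t.1.2)) *
            (vl ℓ (s t.1.1 (!t.1.2)) (.inl (i, j)) * M t.1 (.inr (k', i')) +
              M t.1 (.inl (i, j)) * vl ℓ (s t.1.1 (!t.1.2)) (.inr (k', i'))) :=
      (Finset.sum_coe_sort Λ (fun t => D j' k (vc (κ t.1 t.2) c (s t.1 t.2)) *
            (vl ℓ (s t.1 (!t.2)) (.inl (i, j)) * M t (.inr (k', i')) +
              M t (.inl (i, j)) * vl ℓ (s t.1 (!t.2)) (.inr (k', i'))))).symm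
    rw [e1, e2] at h3
    simp only [Matrix.of_apply, Fintype.sum_prod_type, Fintype.sum_sum_type, Fintype.sum_bool]
    have h4 : D j' k (if i = i' then B j k' else 0) =
        if i = i' ∧ j = j' ∧ k = k' then 1 else 0 := by
      by_cases hi : i = i'
      · rw [if_pos hi, hDB]
        refine if_congr ?_ rfl rfl
        constructor
        · rintro ⟨h4, h5⟩
          exact ⟨hi, h4, h5.symm⟩
        · rintro ⟨_, h4, h5⟩
          exact ⟨h4, h5.symm⟩
      · rw [if_neg hi, if_neg fun hc => hi hc.1]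
        exact (hD j' k).zero
    simp only at h3
    rw [← h4, h3]
    congr 1
    · refine Finset.sum_congr rfl fun g _ => ?_
      simp only [pp, Bool.not_true, Bool.not_false]
      ring
    · refine Finset.sum_congr rfl fun t _ => ?_
      ring

end

end Pool.Agent.W956.KF
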