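import Pool.Agent.H676.G.R_seed8.W956.KF.Part1
import Pool.Agent.H676.G.R_seed8.W956.KF.Run2

set_option autoImplicit false
set_option linter.unusedSectionVars false

/-!
# Circuits for a single bilinear form
-/

namespace Pool.Agent.W956.KF

open Finset Pool.Agent.H53R3 Pool.Agent.H522R2 Pool.Agent.H522R2.Circuit MvPolynomial

universe u v

section

variable {K : Type u} [Field K] {X Y : Type v}

open Classical in
/-- the bilinear part at a node -/
noncomputable def qq (C : Circuit K (X ⊕ Y)) (v : Fin C.nodes) (x : X) (y : Y) : K :=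
  jQ C (Pi.single x 1) (Pi.single y 1) v

theorem vq_srcOf (C : Circuit K (X ⊕ Y)) (v : Fin C.nodes) (x : X) (y : Y) :
    vq (fun l : {k : Fin C.nodes // IsGate C k} => qq C l.1) (srcOf C v) x y = qq C v x y := by
  classical
  unfold srcOf
  split_ifs with h
  · rfl
  · cases hg : C.gate v with
    | var y =>
      rw [qq, jQ, hg]
      rfl
    | const c =>
      rw [qq, jQ, hg]
      rfl
    | add i j => exact absurd (Or.inl ⟨i, j, hg⟩) h
    | mul i j => exact absurd (Or.inr ⟨i, j, hg⟩) h

open Classical in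
theorem isRun2_circuit (C : Circuit K (X ⊕ Y)) :
    IsRun2 (L := {k : Fin C.nodes // IsGate C k})
      (fun l => decide (∃ i j, C.gate l.1 = Gate.mul i j))
      (fun l b => srcOf C (opd C l.1 b)) (fun l b => cst C (opd C l.1 b))
      (fun l => cc C l.1) (fun l => ll C l.1) (fun l => qq C l.1) := by
  refine { isRun_circuit C with qadd := ?_, qmul := ?_ }
  · rintro ⟨l, hl⟩ x y hmu
    simp only [vq_srcOf]
    rcases hl with ⟨i, j, h⟩ | ⟨i, j, h⟩
    · simp only [qq, opd, h]
      rw [jQ, h]
      simp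
    · simp [h] at hmu
  · rintro ⟨l, hl⟩ x y hmu
    simp only [vc_srcOf, vl_srcOf, vq_srcOf]
    rcases hl with ⟨i, j, h⟩ | ⟨i, j, h⟩
    · simp [h] at hmu
    · simp only [qq, cc, ll, opd, h]
      rw [jQ, h]
      simp only [Pool.Agent.H88R3.MM.jc_eq, Pool.Agent.H88R3.MM.jA_eq,
        Pool.Agent.H88R3.MM.jB_eq, Bool.false_eq_true, if_false, if_true]

variable {m n p : ℕ}

theorem ev_form (B : Matrix (Fin n) (Fin p) K) (a : Fin m × Fin n → K) (b : Fin p × Fin m → K) :
    (ev a b (form m B)).snd.snd = ∑ i, ∑ j, ∑ k, B j k * (a (i, j) * b (k, i)) := by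
  have hs : ∀ {ι : Type} (s : Finset ι) (f : ι → DualNumber (DualNumber K)),
      (∑ t ∈ s, f t).snd.snd = ∑ t ∈ s, (f t).snd.snd := by
    classical
    intro ι s f
    induction s using Finset.induction_on with
    | empty => simp
    | insert a s ha ih =>
      rw [Finset.sum_insert ha, Finset.sum_insert ha, TrivSqZeroExt.snd_add,
        TrivSqZeroExt.snd_add, ih]
  unfold form
  simp only [map_sum, hs]
  refine Finset.sum_congr rfl fun i _ => Finset.sum_congr rfl fun j _ =>
    Finset.sum_congr rfl fun k _ => ?_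
  have h1 : (algebraMap K (DualNumber (DualNumber K))) (B j k)
      = TrivSqZeroExt.inl (TrivSqZeroExt.inl (B j k)) := rfl
  simp [ev, h1]
  ring

theorem qq_form (C : Circuit K ((Fin m × Fin n) ⊕ (Fin p × Fin m))) (B : Matrix (Fin n) (Fin p) K)
    (v : Fin C.nodes) (hv : C.poly v = form m B) (x : Fin m × Fin n) (y : Fin p × Fin m) :
    qq C v x y = if x.1 = y.2 then B x.2 y.1 else 0 := by
  classical
  obtain ⟨i, j⟩ := x
  obtain ⟨k, i'⟩ := y
  unfold qq
  rw [← (ev_poly C _ _ v).2.2.2, hv, ev_form]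
  simp only [Pi.single_apply]
  rw [Finset.sum_eq_single i, Finset.sum_eq_single j, Finset.sum_eq_single k]
  · rw [if_pos rfl]
    by_cases h : i = i'
    · subst h
      simp
    · rw [if_neg h, if_neg (fun hc : ((k, i) : Fin p × Fin m) = (k, i') =>
        h (Prod.mk.inj hc).2)]
      simp
  · intro k' _ hk
    rw [if_neg (fun hc : ((k', i) : Fin p × Fin m) = (k, i') => hk (Prod.mk.inj hc).1)]
    simp
  · simp
  · intro j' _ hj
    refine Finset.sum_eq_zero fun k' _ => ?_
    rw [if_neg (fun hc : ((i, j') : Fin m × Fin n) = (i, j) => hj (Prod.mk.inj hc).2)]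
    simp
  · simp
  · intro i1 _ hi
    refine Finset.sum_eq_zero fun j' _ => Finset.sum_eq_zero fun k' _ => ?_
    rw [if_neg (fun hc : ((i1, j') : Fin m × Fin n) = (i, j) => hi (Prod.mk.inj hc).1)]
    simp
  · simp

/-- the output -/
theorem out_form (C : Circuit K ((Fin m × Fin n) ⊕ (Fin p × Fin m)))
    (B : Matrix (Fin n) (Fin p) K) (hC : ∃ v : Fin C.nodes, C.poly v = form m B) :
    (∃ l : {k : Fin C.nodes // IsGate C k}, ∀ (x : Fin m × Fin n) (y : Fin p × Fin m),
      qq C l.1 x y = if x.1 = y.2 then B x.2 y.1 else 0) ∨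
      ∀ (x : Fin m × Fin n) (y : Fin p × Fin m), (if x.1 = y.2 then B x.2 y.1 else 0) = 0 := by
  classical
  obtain ⟨v, hv⟩ := hC
  by_cases hg : IsGate C v
  · left
    exact ⟨⟨v, hg⟩, fun x y => qq_form C B v hv x y⟩
  · right
    intro x y
    rw [← qq_form C B v hv x y, qq, jQ]
    cases hgt : C.gate v with
    | var y => rfl
    | const c => rfl
    | add i j => exact absurd (Or.inl ⟨i, j, hgt⟩) hg
    | mul i j => exact absurd (Or.inr ⟨i, j, hgt⟩) hg

theorem pp_eq_zero (C : Circuit K (X ⊕ Y)) (l : {k : Fin C.nodes // IsGate C k})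
    (hl : ∃ i j, C.gate l.1 = Gate.mul i j) (hn : ¬ C.IsNonscalar l.1) (x : X) (y : Y) :
    pp (fun (l : {k : Fin C.nodes // IsGate C k}) b => srcOf C (opd C l.1 b))
      (fun l => ll C l.1) l x y = 0 := by
  have h : ∃ b, ∃ c : K, C.poly (opd C l.1 b) = MvPolynomial.C c := by
    by_contra hcon
    push Not at hcon
    exact hn (isNonscalar_of hl fun b c => hcon b c)
  obtain ⟨b, c, hc⟩ := h
  unfold pp
  simp only [vl_srcOf]
  have h0 : ∀ z, ll C (opd C l.1 b) z = 0 := by
    intro z
    rw [ll, hc, coeff_single_C]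
  cases b
  · rw [h0, h0]; ring
  · rw [h0, h0]; ring

open Classical in
/-- The rank bound for a circuit computing the form, given derivations. -/
theorem circuit2_rank (C : Circuit K ((Fin m × Fin n) ⊕ (Fin p × Fin m)))
    (B : Matrix (Fin n) (Fin p) K)
    (hC : ∃ v : Fin C.nodes, C.poly v = form m B) (D : Fin n → Fin p → K → K)
    (hD : ∀ j k, IsDer (D j k))
    (hDB : ∀ j k j' k', D j k (B j' k') = if j' = j ∧ k' = k then 1 else 0) :
    RankLE K m n p (2 * scalarCount C + 6 * C.nonscalarCount) := by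
  let Λ : Finset ({k : Fin C.nodes // IsGate C k} × Bool) :=
    univ.filter fun t => Act C (t.1.1, t.2)
  let G : Finset {k : Fin C.nodes // IsGate C k} := univ.filter fun l => C.IsNonscalar l.1
  have hΛ : Λ.card ≤ scalarCount C + 2 * C.nonscalarCount := by
    refine le_trans ?_ (card_act_le C)
    have h2 : Λ.card = Nat.card Λ := by simp
    rw [h2]
    apply Nat.card_le_card_of_injective (fun t : Λ =>
      (⟨(t.1.1.1, t.1.2), (mem_filter.1 t.2).2⟩ : {t : Fin C.nodes × Bool // Act C t}))
    rintro ⟨⟨⟨g, hg⟩, b⟩, h⟩ ⟨⟨⟨g', hg'⟩, b'⟩, h'⟩ heq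
    have := congrArg Subtype.val heq
    simp only [Prod.mk.injEq] at this
    obtain ⟨rfl, rfl⟩ := this
    rfl
  have hGc : G.card ≤ C.nonscalarCount := by
    have h2 : G.card = Nat.card G := by simp
    rw [h2]
    apply Nat.card_le_card_of_injective (fun t : G =>
      (⟨t.1.1, (mem_filter.1 t.2).2⟩ : {k : Fin C.nodes // C.IsNonscalar k}))
    rintro ⟨⟨g, hg⟩, h⟩ ⟨⟨g', hg'⟩, h'⟩ heq
    have := congrArg Subtype.val heq
    simp only at this
    subst this
    rfl
  refine (run2_rank (isRun2_circuit C) (srcOf_lt C) Λ G ?_ B D hD hDB ?_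
    (out_form C B hC)).mono ?_
  · intro l hl hnot x y
    simp only [decide_eq_true_eq] at hl
    refine pp_eq_zero C l hl (fun h4 => hnot ?_) x y
    simp only [G, mem_filter, mem_univ, true_and]
    exact h4
  · rintro j k ⟨l, hl⟩ b hmu hnot
    simp only [decide_eq_true_eq] at hmu
    right
    intro x
    simp only [vl_srcOf]
    have h3 : ¬ Act C (l, b) := by
      intro h4
      exact hnot (by simp only [Λ, mem_filter, mem_univ, true_and]; exact h4)
    unfold Act at h3
    rw [not_and] at h3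
    have h5 := h3 hmu
    push Not at h5
    exact h5 x
  · omega

/-- **Part 1 for the form.** -/
theorem part_one_form {k : Type} [Field k] [CharZero k] {K : Type u} [Field K] [Algebra k K]
    {m n p : ℕ} (B : Matrix (Fin n) (Fin p) K)
    (hB : AlgebraicIndependent k fun x : Fin n × Fin p => B x.1 x.2)
    (C : Circuit K ((Fin m × Fin n) ⊕ (Fin p × Fin m)))
    (hC : ∃ v : Fin C.nodes, C.poly v = form m B) :
    RankLE K m n p (2 * scalarCount C + 6 * C.nonscalarCount) := by
  classical
  choose D hD hDk hDB using fun i : Fin n × Fin p => exists_der hB i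
  refine circuit2_rank C B hC (fun j k => D (j, k)) (fun j k => hD (j, k)) ?_
  intro j k j' k'
  have := hDB (j, k) (j', k')
  simp only [Prod.mk.injEq] at this
  exact this

end

end Pool.Agent.W956.KF
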