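import Pool.Agent.H676.G.R_seed8.W956.KF.OfCircuit

set_option autoImplicit false
set_option linter.unusedSectionVars false

/-!
# Circuits over a field in which the entries of the known factor are algebraically independent
-/

namespace Pool.Agent.W956.KF

open Finset Pool.Agent.H53R3 Pool.Agent.H522R2 Pool.Agent.H522R2.Circuit MvPolynomial

universe u v

section

variable {K : Type u} [Field K] {V : Type v}

/-- The pairs of a multiplication gate and one of its two inputs such that the linear part of the
other input is not zero. -/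
def Act (C : Circuit K V) (t : Fin C.nodes × Bool) : Prop :=
  (∃ i j, C.gate t.1 = Gate.mul i j) ∧
    ∃ x : V, (C.poly (opd C t.1 (!t.2))).coeff (Finsupp.single x 1) ≠ 0

theorem Act.not_const {C : Circuit K V} {t : Fin C.nodes × Bool} (h : Act C t) (c : K) :
    C.poly (opd C t.1 (!t.2)) ≠ MvPolynomial.C c := by
  intro h1
  obtain ⟨_, x, hx⟩ := h
  rw [h1, coeff_single_C] at hx
  exact hx rfl

theorem isNonscalar_of {C : Circuit K V} {g : Fin C.nodes} (hg : ∃ i j, C.gate g = Gate.mul i j)
    (h : ∀ b, ∀ c : K, C.poly (opd C g b) ≠ MvPolynomial.C c) : C.IsNonscalar g := by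
  obtain ⟨i, j, hij⟩ := hg
  refine ⟨i, j, hij, ?_, ?_⟩
  · intro c
    have := h false c
    unfold opd at this
    rw [hij] at this
    exact this
  · intro c
    have := h true c
    unfold opd at this
    rw [hij] at this
    exact this

open Classical in
theorem card_act_le (C : Circuit K V) :
    Nat.card {t : Fin C.nodes × Bool // Act C t} ≤ scalarCount C + 2 * C.nonscalarCount := by
  have e : Nat.card ({g : Fin C.nodes // (∃ i j, C.gate g = Gate.mul i j) ∧
      ∃ b : Bool, (∃ c : K, C.poly (opd C g b) = MvPolynomial.C c) ∧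
        ∀ c : K, C.poly (opd C g (!b)) ≠ MvPolynomial.C c} ⊕
      (Bool × {g : Fin C.nodes // C.IsNonscalar g})) =
      scalarCount C + 2 * C.nonscalarCount := by
    rw [Nat.card_sum, Nat.card_prod, Nat.card_eq_fintype_card (α := Bool), Fintype.card_bool]
    rfl
  rw [← e]
  let f : {t : Fin C.nodes × Bool // Act C t} →
      ({g : Fin C.nodes // (∃ i j, C.gate g = Gate.mul i j) ∧
      ∃ b : Bool, (∃ c : K, C.poly (opd C g b) = MvPolynomial.C c) ∧
        ∀ c : K, C.poly (opd C g (!b)) ≠ MvPolynomial.C c} ⊕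
      (Bool × {g : Fin C.nodes // C.IsNonscalar g})) := fun t =>
    if h : ∃ c : K, C.poly (opd C t.1.1 t.1.2) = MvPolynomial.C c then
      .inl ⟨t.1.1, t.2.1, t.1.2, h, t.2.not_const⟩
    else .inr (t.1.2, ⟨t.1.1, isNonscalar_of t.2.1 (by
      intro b c hc
      by_cases hb : b = t.1.2
      · subst hb
        exact h ⟨c, hc⟩
      · have hb' : b = !t.1.2 := by
          revert hb
          cases b <;> cases t.1.2 <;> simp
        rw [hb'] at hc
        exact t.2.not_const c hc)⟩)
  apply Nat.card_le_card_of_injective f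
  rintro ⟨⟨g, b⟩, ht⟩ ⟨⟨g', b'⟩, ht'⟩ hff
  simp only [f] at hff
  by_cases h : ∃ c : K, C.poly (opd C g b) = MvPolynomial.C c
  · by_cases h' : ∃ c : K, C.poly (opd C g' b') = MvPolynomial.C c
    · rw [dif_pos h, dif_pos h'] at hff
      have h1 := congrArg Subtype.val (Sum.inl_injective hff)
      simp only at h1
      subst h1
      have h2 : b = b' := by
        by_contra hne
        have hb' : b' = !b := by
          revert hne
          cases b <;> cases b' <;> simp
        obtain ⟨c, hc⟩ := h'
        rw [hb'] at hc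
        exact ht.not_const c hc
      subst h2
      rfl
    · rw [dif_pos h, dif_neg h'] at hff
      exact absurd hff (by simp)
  · by_cases h' : ∃ c : K, C.poly (opd C g' b') = MvPolynomial.C c
    · rw [dif_neg h, dif_pos h'] at hff
      exact absurd hff (by simp)
    · rw [dif_neg h, dif_neg h'] at hff
      have h1 := Sum.inr_injective hff
      have h2 := congrArg Prod.fst h1
      have h3 := congrArg Subtype.val (congrArg Prod.snd h1)
      simp only at h2 h3
      subst h2
      subst h3
      rfl

theorem scalar_add_le (C : Circuit K V) :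
    scalarCount C + C.nonscalarCount ≤ C.mulCount := by
  classical
  unfold scalarCount nonscalarCount mulCount
  rw [← Nat.card_sum]
  apply Nat.card_le_card_of_injective (fun t : {g : Fin C.nodes //
      (∃ i j, C.gate g = Gate.mul i j) ∧
        ∃ b : Bool, (∃ c : K, C.poly (opd C g b) = MvPolynomial.C c) ∧
        ∀ c : K, C.poly (opd C g (!b)) ≠ MvPolynomial.C c} ⊕ {g : Fin C.nodes //
          C.IsNonscalar g} => (match t with
    | .inl g => ⟨g.1, g.2.1⟩
    | .inr g => ⟨g.1, by obtain ⟨i, j, h, _⟩ := g.2; exact ⟨i, j, h⟩⟩ :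
        {k : Fin C.nodes // ∃ i j, C.gate k = Gate.mul i j}))
  have hd : ∀ g : Fin C.nodes, C.IsNonscalar g →
      ¬ ∃ b : Bool, (∃ c : K, C.poly (opd C g b) = MvPolynomial.C c) ∧
        ∀ c : K, C.poly (opd C g (!b)) ≠ MvPolynomial.C c := by
    rintro g ⟨i, j, hij, h1, h2⟩ ⟨b, ⟨c, hc⟩, _⟩
    unfold opd at hc
    rw [hij] at hc
    cases b
    · exact h1 c hc
    · exact h2 c hc
  rintro (⟨g, hg⟩ | ⟨g, hg⟩) (⟨g', hg'⟩ | ⟨g', hg'⟩) h
  · have := congrArg Subtype.val h
    simp only at this
    subst this
    rfl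
  · have := congrArg Subtype.val h
    simp only at this
    subst this
    exact absurd hg.2 (hd _ hg')
  · have := congrArg Subtype.val h
    simp only at this
    subst this
    exact absurd hg'.2 (hd _ hg)
  · have := congrArg Subtype.val h
    simp only at this
    subst this
    rfl

end

section

variable {K : Type u} [Field K] {m n p : ℕ}

open Classical in
/-- The rank bound for a circuit, given derivations. -/
theorem circuit_rank (C : Circuit K (Fin m × Fin n)) (B : Matrix (Fin n) (Fin p) K)
    (hC : ComputesKnown C B) (D : Fin n → Fin p → K → K) (hD : ∀ j k, IsDer (D j k))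
    (hDB : ∀ j k j' k', D j k (B j' k') = if j' = j ∧ k' = k then 1 else 0)
    (P : Fin C.nodes × Bool → Prop)
    (hP : ∀ t : Fin C.nodes × Bool, (∃ i j, C.gate t.1 = Gate.mul i j) → ¬ P t →
      (∀ j k, D j k (cc C (opd C t.1 t.2)) = 0) ∨ ∀ x, ll C (opd C t.1 (!t.2)) x = 0) :
    RankLE K m n p (Nat.card {t : Fin C.nodes × Bool //
      (∃ i j, C.gate t.1 = Gate.mul i j) ∧ P t}) := by
  let Λ : Finset ({k : Fin C.nodes // IsGate C k} × Bool) :=
    univ.filter fun t => (∃ i j, C.gate t.1.1 = Gate.mul i j) ∧ P (t.1.1, t.2)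
  have h1 := run_rank (isRun_circuit C) (srcOf_lt C) Λ B D hD hDB ?_ (out_circuit C B hC)
  · refine h1.mono ?_
    have h2 : Λ.card = Nat.card Λ := by simp
    rw [h2]
    apply Nat.card_le_card_of_injective (fun t : Λ =>
      (⟨(t.1.1.1, t.1.2), (mem_filter.1 t.2).2⟩ : {t : Fin C.nodes × Bool //
      (∃ i j, C.gate t.1 = Gate.mul i j) ∧ P t}))
    rintro ⟨⟨⟨g, hg⟩, b⟩, h⟩ ⟨⟨⟨g', hg'⟩, b'⟩, h'⟩ heq
    have := congrArg Subtype.val heq
    simp only [Prod.mk.injEq] at this
    obtain ⟨rfl, rfl⟩ := this
    rfl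
  · rintro j k ⟨l, hl⟩ b hmu hnot
    simp only [decide_eq_true_eq] at hmu
    simp only [vc_srcOf, vl_srcOf]
    have h3 : ¬ P (l, b) := by
      intro h4
      exact hnot (by simp only [Λ, mem_filter, mem_univ, true_and]; exact ⟨hmu, h4⟩)
    rcases hP (l, b) hmu h3 with h5 | h5
    · exact Or.inl (h5 j k)
    · exact Or.inr h5

/-- **Part 1.** -/
theorem part_one {k : Type} [Field k] [CharZero k] {K : Type u} [Field K] [Algebra k K]
    {m n p : ℕ} (B : Matrix (Fin n) (Fin p) K)
    (hB : AlgebraicIndependent k fun x : Fin n × Fin p => B x.1 x.2)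
    (C : Circuit K (Fin m × Fin n)) (hC : ComputesKnown C B) :
    RankLE K m n p (liveCount k C) := by
  classical
  choose D hD hDk hDB using fun i : Fin n × Fin p => exists_der hB i
  have h := circuit_rank C B hC (fun j k => D (j, k)) (fun j k => hD (j, k)) ?_
    (fun t => Transcendental k ((C.poly (opd C t.1 t.2)).coeff 0) ∧
      ∃ x : Fin m × Fin n, (C.poly (opd C t.1 (!t.2))).coeff (Finsupp.single x 1) ≠ 0) ?_
  · exact h
  · intro j k j' k'
    have := hDB (j, k) (j', k')
    simp only [Prod.mk.injEq] at this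
    exact this
  · intro t _ hnot
    rw [not_and_or] at hnot
    rcases hnot with h1 | h1
    · left
      intro j k
      rw [Transcendental, not_not] at h1
      exact der_algebraic (hD (j, k)) (hDk (j, k)) h1
    · right
      push Not at h1
      exact h1

theorem live_le_act {k : Type} [Field k] {K : Type u} [Field K] [Algebra k K]
    {V : Type} (C : Circuit K V) : liveCount k C ≤ scalarCount C + 2 * C.nonscalarCount := by
  refine le_trans ?_ (card_act_le C)
  unfold liveCount
  apply Nat.card_le_card_of_injective (fun t : {t : Fin C.nodes × Bool //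
      (∃ i j, C.gate t.1 = Gate.mul i j) ∧
    Transcendental k ((C.poly (opd C t.1 t.2)).coeff 0) ∧
      ∃ x : V, (C.poly (opd C t.1 (!t.2))).coeff (Finsupp.single x 1) ≠ 0} =>
    (⟨t.1, t.2.1, t.2.2.2⟩ : {t : Fin C.nodes × Bool // Act C t}))
  intro x y hxy
  have := congrArg Subtype.val hxy
  exact Subtype.ext this

end

end Pool.Agent.W956.KF
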