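import Pool.Agent.H676.G.R_seed8.W956.KF.MMCost
import Pool.Agent.H676.G.R_seed8.W956.KF.OfCircuit2

set_option autoImplicit false
set_option linter.unusedSectionVars false

/-!
# Circuit sizes of matrix multiplication with variable and with known right factor
-/

namespace Pool.Agent.W956.KF

open Finset Pool.Agent.H522R2 Pool.Agent.H522R2.Circuit Pool.Agent.H88R3.MM

variable {K : Type} [Field K]

/-- outputs for a variable right factor -/
def outMM (K : Type) [Field K] (m : ℕ) : Set (MvPolynomial (Vars m) K) :=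
  Set.range fun t : Fin m × Fin m => entryMM K m t.1 t.2

/-- outputs for a known right factor -/
def outKnown (m : ℕ) {n p : ℕ} (B : Matrix (Fin n) (Fin p) K) :
    Set (MvPolynomial (Fin m × Fin n) K) :=
  Set.range fun t : Fin m × Fin p => target B t.1 t.2

theorem sizeMM_le {m s : ℕ} (h : Cost (inputs K (Vars m)) (outMM K m) s) : sizeMM K m ≤ s := by
  obtain ⟨C, h1, h2⟩ := exists_circuit_of_cost (Set.finite_range _) h
  refine le_trans (Nat.sInf_le ⟨C, fun i j => h2 _ ⟨(i, j), rfl⟩, rfl⟩) h1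

theorem sizeKnown_le {m n p : ℕ} {B : Matrix (Fin n) (Fin p) K} {s : ℕ}
    (h : Cost (inputs K (Fin m × Fin n)) (outKnown m B) s) : sizeKnown m B ≤ s := by
  obtain ⟨C, h1, h2⟩ := exists_circuit_of_cost (Set.finite_range _) h
  refine le_trans (Nat.sInf_le ⟨C, fun i j => h2 _ ⟨(i, j), rfl⟩, rfl⟩) h1

theorem sizeForm_le {m n p : ℕ} {B : Matrix (Fin n) (Fin p) K} {s : ℕ}
    (h : Cost (inputs K ((Fin m × Fin n) ⊕ (Fin p × Fin m))) {form m B} s) : sizeForm m B ≤ s := by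
  obtain ⟨C, h1, h2⟩ := exists_circuit_of_cost (Set.finite_singleton _) h
  refine le_trans (Nat.sInf_le ⟨C, h2 _ rfl, rfl⟩) h1

theorem C_mem_inputs {V : Type} (c : K) : algebraMap K (MvPolynomial V K) c ∈ inputs K V :=
  Or.inr ⟨c, rfl⟩

theorem X_mem_inputs {V : Type} (v : V) : (MvPolynomial.X v : MvPolynomial V K) ∈ inputs K V :=
  Or.inl ⟨v, rfl⟩

/-- Strassen's recursion for circuits -/
theorem cost_outMM {m s : ℕ} (h : CostMM K (Fin m) s) :
    Cost (inputs K (Vars m)) (outMM K m) s := by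
  refine (h (MvPolynomial (Vars m) K) (inputs K (Vars m)) C_mem_inputs
    (Matrix.of fun i k => MvPolynomial.X (Sum.inl (i, k)))
    (Matrix.of fun k j => MvPolynomial.X (Sum.inr (k, j)))
    (fun i j => X_mem_inputs _) (fun i j => X_mem_inputs _)).mono subset_rfl ?_ le_rfl
  rintro _ ⟨⟨i, j⟩, rfl⟩
  exact ⟨i, j, rfl⟩

theorem exists_cost_MM (K : Type) [Field K] (m : ℕ) :
    ∃ s, Cost (inputs K (Vars m)) (outMM K m) s := by
  refine ⟨_, cost_outMM (costMM_of_le (K := K) (q := 2) (r := 8) ?_ (by norm_num) m m ?_)⟩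
  · have := rankLE_cube K 2 2 2
    norm_num at this
    exact this
  · exact Nat.lt_two_pow_self.le

theorem exists_circuit_MM (K : Type) [Field K] (m : ℕ) : ∃ C : Circuit K (Vars m),
    (∀ i j, ∃ k : Fin C.nodes, C.poly k = entryMM K m i j) ∧ C.size = sizeMM K m := by
  obtain ⟨s, hs⟩ := exists_cost_MM K m
  obtain ⟨C, h1, h2⟩ := exists_circuit_of_cost (Set.finite_range _) hs
  exact Nat.sInf_mem (s := {s | ∃ C : Circuit K (Vars m),
    (∀ i j, ∃ k : Fin C.nodes, C.poly k = entryMM K m i j) ∧ C.size = s})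
    ⟨C.size, C, fun i j => h2 _ ⟨(i, j), rfl⟩, rfl⟩

theorem cost_MM_sizeMM (K : Type) [Field K] (m : ℕ) :
    Cost (inputs K (Vars m)) (outMM K m) (sizeMM K m) := by
  obtain ⟨C, h1, h2⟩ := exists_circuit_MM K m
  refine (cost_of_circuit C).mono subset_rfl ?_ h2.le
  rintro _ ⟨⟨i, j⟩, rfl⟩
  exact h1 i j

/-- plugging in the known factor -/
theorem cost_known {m : ℕ} (B : Matrix (Fin m) (Fin m) K) :
    Cost (inputs K (Fin m × Fin m)) (outKnown m B) (sizeMM K m) := by
  let φ : MvPolynomial (Vars m) K →+* MvPolynomial (Fin m × Fin m) K :=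
    MvPolynomial.eval₂Hom MvPolynomial.C
      (Sum.elim MvPolynomial.X fun x => MvPolynomial.C (B x.1 x.2))
  refine ((cost_MM_sizeMM K m).map φ).mono ?_ ?_ le_rfl
  · rintro _ ⟨_, ⟨v, rfl⟩ | ⟨c, rfl⟩, rfl⟩
    · rcases v with v | v
      · exact Or.inl ⟨v, by simp [φ]⟩
      · exact Or.inr ⟨B v.1 v.2, by simp [φ]⟩
    · exact Or.inr ⟨c, by simp [φ]⟩
  · rintro _ ⟨⟨i, j⟩, rfl⟩
    refine ⟨_, ⟨(i, j), rfl⟩, ?_⟩
    simp only [entryMM, target, map_sum, map_mul]
    refine Finset.sum_congr rfl fun k _ => ?_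
    simp [φ, mul_comm]

theorem sizeKnown_le_sizeMM {m : ℕ} (B : Matrix (Fin m) (Fin m) K) :
    sizeKnown m B ≤ sizeMM K m := sizeKnown_le (cost_known B)

theorem exists_circuit_known {m : ℕ} (B : Matrix (Fin m) (Fin m) K) :
    ∃ C : Circuit K (Fin m × Fin m), ComputesKnown C B ∧ C.size = sizeKnown m B := by
  obtain ⟨C, h1, h2⟩ := exists_circuit_of_cost (Set.finite_range _) (cost_known B)
  exact Nat.sInf_mem (s := {s | ∃ C : Circuit K (Fin m × Fin m), ComputesKnown C B ∧ C.size = s})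
    ⟨C.size, C, fun i j => h2 _ ⟨(i, j), rfl⟩, rfl⟩

/-- the form from the product with the known factor -/
theorem cost_form {m n p s : ℕ} (B : Matrix (Fin n) (Fin p) K)
    (h : Cost (inputs K (Fin m × Fin n)) (outKnown m B) s) :
    Cost (inputs K ((Fin m × Fin n) ⊕ (Fin p × Fin m))) {form m B} (s + 2 * (m * p)) := by
  let φ : MvPolynomial (Fin m × Fin n) K →+* MvPolynomial ((Fin m × Fin n) ⊕ (Fin p × Fin m)) K :=
    MvPolynomial.eval₂Hom MvPolynomial.C (fun x => MvPolynomial.X (Sum.inl x))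
  let E : Set (MvPolynomial ((Fin m × Fin n) ⊕ (Fin p × Fin m)) K) := φ '' (outKnown m B)
  have h1 : Cost (inputs K ((Fin m × Fin n) ⊕ (Fin p × Fin m))) E s := by
    refine (h.map φ).mono ?_ subset_rfl le_rfl
    rintro _ ⟨_, ⟨v, rfl⟩ | ⟨c, rfl⟩, rfl⟩
    · exact Or.inl ⟨.inl v, by simp [φ]⟩
    · exact Or.inr ⟨c, by simp [φ]⟩
  have h2 : Cost (inputs K ((Fin m × Fin n) ⊕ (Fin p × Fin m)) ∪ E)
      {∑ t : Fin m × Fin p, φ (target B t.1 t.2) * MvPolynomial.X (Sum.inr (t.2, t.1))}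
      (2 * Fintype.card (Fin m × Fin p)) := by
    have h0 : (0 : MvPolynomial ((Fin m × Fin n) ⊕ (Fin p × Fin m)) K) ∈
        inputs K ((Fin m × Fin n) ⊕ (Fin p × Fin m)) := Or.inr ⟨0, by simp⟩
    refine Cost.sum_mul (Set.mem_union_left _ h0) _ _ ?_ ?_
    · intro t
      exact Or.inr ⟨_, ⟨t, rfl⟩, rfl⟩
    · intro t
      exact Or.inl (X_mem_inputs _)
  refine (h1.comp h2).mono subset_rfl ?_ (by simp)
  rintro _ rfl
  right
  show form m B = _
  rw [Fintype.sum_prod_type]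
  unfold form
  refine Finset.sum_congr rfl fun i _ => ?_
  simp only [target, map_sum, map_mul, Finset.sum_mul]
  rw [Finset.sum_comm]
  refine Finset.sum_congr rfl fun k _ => Finset.sum_congr rfl fun j _ => ?_
  simp [φ, mul_assoc]

theorem sizeForm_le_sizeKnown {m : ℕ} (B : Matrix (Fin m) (Fin m) K) :
    sizeForm m B ≤ sizeKnown m B + 2 * m ^ 2 := by
  obtain ⟨C, h1, h2⟩ := exists_circuit_known B
  have h3 : Cost (inputs K (Fin m × Fin m)) (outKnown m B) (sizeKnown m B) := by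
    refine (cost_of_circuit C).mono subset_rfl ?_ h2.le
    rintro _ ⟨⟨i, j⟩, rfl⟩
    exact h1 i j
  have h4 := sizeForm_le (cost_form B h3)
  rw [pow_two]
  exact h4

theorem exists_circuit_form {m : ℕ} (B : Matrix (Fin m) (Fin m) K) :
    ∃ C : Circuit K ((Fin m × Fin m) ⊕ (Fin m × Fin m)),
      (∃ v : Fin C.nodes, C.poly v = form m B) ∧ C.size = sizeForm m B := by
  obtain ⟨C, h1, h2⟩ := exists_circuit_of_cost (Set.finite_singleton _)
    (cost_form B (cost_known B))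
  exact Nat.sInf_mem (s := {s | ∃ C : Circuit K ((Fin m × Fin m) ⊕ (Fin m × Fin m)),
      (∃ v : Fin C.nodes, C.poly v = form m B) ∧ C.size = s})
    ⟨C.size, C, h2 _ rfl, rfl⟩

end Pool.Agent.W956.KF
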